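import Pool.Agent.H73.KFIN.Count
import Pool.Agent.H53.Dense.Loss
import Pool.Agent.H53.Dense.Restr

/-!
# From the maximal entropy inequality to the inequality for tubes without loss
-/

set_option autoImplicit false

namespace Pool.KFIN

open Finset Real
open Pool.Agent.H49.Ent Pool.Agent.H32.Dense Pool.STK

/-- The maximal entropy inequality with the constant `β`: no condition on the times. For
`β = m + 1` it is the entropy form of the Kakeya maximal inequality in dimension `m + 1`. -/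
def MB (m : ℕ) (β : ℝ) : Prop :=
  ∀ ε > 0, ∃ J₀ : ℕ, ∀ J ≥ J₀, ∀ F : Pool.KA.Fam m J,
    CH F.p (F.D J) F.Z + (J : ℝ) * Real.log 2 - CH F.p (fun ω => (F.X J ω, F.T ω)) F.Z ≤
      β * ((J : ℝ) * Real.log 2 - CH F.p F.T (fun ω => (F.l ω, F.Z ω))) + ε * J

/-- Lower bound for a conditional entropy. -/
lemma CH_lower' {Ω S T : Type} [Fintype Ω] {p : Ω → ℝ} (hp : IsLaw p) (X : Ω → S)
    (Z : Ω → T) {b : ℝ} (hb : 0 < b)
    (h : ∀ ω, 0 < p ω → b * law p (fun w => (X w, Z w)) (X ω, Z ω) ≤ law p Z (Z ω)) :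
    Real.log b ≤ CH p X Z := by
  rw [CH_eq_neg_sum hp.nonneg]
  have hb1 : Ex p (fun _ => Real.log b) = Real.log b := Ex_const hp.sum_one _
  rw [← hb1]
  refine Ex_mono hp.nonneg fun w hw => ?_
  have h3 : 0 < law p (fun w' => (X w', Z w')) (X w, Z w) :=
    law_pos hp.nonneg (fun w' => (X w', Z w')) hw
  rw [← Real.log_inv, inv_div]
  refine Real.log_le_log hb ?_
  rw [le_div_iff₀ h3]
  exact h w hw

lemma law_inj {Ω S : Type} [Fintype Ω] (p : Ω → ℝ) (f : Ω → S) (hf : Function.Injective f)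
    (w : Ω) : law p f (f w) = p w := by
  classical
  unfold law
  rw [Finset.sum_eq_single w]
  · exact if_pos rfl
  · intro b _ hb
    exact if_neg fun h => hb (hf h)
  · intro h
    exact absurd (Finset.mem_univ w) h

section

variable {d m N : ℕ}

open Classical in
lemma sum_fib {A : Fin N → Finset ℤ} (hA : ∀ i, A i ⊆ Finset.Ico 0 (2 ^ m : ℤ)) (f : Fin N → ℝ)
    (i : Fin N) : ∑ w : Om m A, (if w.1.1 = i then f w.1.1 else 0) = (A i).card * f i := by
  rw [← Finset.sum_filter, ← card_fib A hA i, Finset.sum_congr rfl (g := fun _ => f i),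
    Finset.sum_const, nsmul_eq_mul]
  intro w hw
  rw [(Finset.mem_filter.mp hw).2]

open Classical in
lemma sum_all {A : Fin N → Finset ℤ} (hA : ∀ i, A i ⊆ Finset.Ico 0 (2 ^ m : ℤ)) (f : Fin N → ℝ) :
    ∑ w : Om m A, f w.1.1 = ∑ i, (A i).card * f i := by
  rw [← Finset.sum_congr rfl fun i _ => sum_fib hA f i, Finset.sum_comm]
  refine Finset.sum_congr rfl fun w _ => ?_
  rw [Finset.sum_ite_eq]
  simp

/-- The law: a uniform line, and a uniform time of the line. -/
noncomputable def wt (A : Fin N → Finset ℤ) (i : Fin N) : ℝ := ((N : ℝ) * (A i).card)⁻¹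

/-- The family of lines of the counting problem, each line with the same probability. -/
noncomputable def fam2 (u : Fin N → Fin d → ℝ) (v : Fin N → Fin d → ℤ)
    (A : Fin N → Finset ℤ) (hv : ∀ i k, |v i k| ≤ 2 ^ m) (hN : 0 < N)
    (hA : ∀ i, A i ⊆ Finset.Ico 0 (2 ^ m : ℤ)) (hne : ∀ i, (A i).Nonempty) :
    Pool.KA.Fam d m where
  Ω := Om m A
  ζ := Unit
  fin := inferInstance
  p := fun w => wt A w.1.1
  u := fun w k => u w.1.1 k / 2 ^ m
  d := fun w k => (v w.1.1 k : ℝ) / 2 ^ m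
  T := fun w => w.1.2
  Z := fun _ => ()
  isLaw := by
    refine ⟨fun _ => by unfold wt; positivity, ?_⟩
    rw [sum_all hA (wt A)]
    have h : ∀ i : Fin N, ((A i).card : ℝ) * wt A i = (N : ℝ)⁻¹ := by
      intro i
      have h1 : (0 : ℝ) < (A i).card := by exact_mod_cast (hne i).card_pos
      have h2 : (0 : ℝ) < N := by exact_mod_cast hN
      unfold wt
      field_simp
    rw [Finset.sum_congr rfl fun i _ => h i, Finset.sum_const, Finset.card_univ,
      Fintype.card_fin, nsmul_eq_mul]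
    have h2 : (0 : ℝ) < N := by exact_mod_cast hN
    exact mul_inv_cancel₀ h2.ne'
  dir := fun w k => by
    rw [abs_div, abs_of_pos (by positivity : (0 : ℝ) < 2 ^ m), div_le_one (by positivity)]
    have := hv w.1.1 k
    have h2 : ((|v w.1.1 k| : ℤ) : ℝ) ≤ ((2 ^ m : ℤ) : ℝ) := Int.cast_le.mpr this
    rw [Int.cast_abs] at h2
    push_cast at h2
    exact h2
  tim := fun w => w.1.2.2

variable {u : Fin N → Fin d → ℝ} {v : Fin N → Fin d → ℤ} {A : Fin N → Finset ℤ}
  (hv : ∀ i k, |v i k| ≤ 2 ^ m) (hN : 0 < N)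
  (hA : ∀ i, A i ⊆ Finset.Ico 0 (2 ^ m : ℤ)) (hne : ∀ i, (A i).Nonempty)

lemma fam2_D (w : Om m A) : (fam2 u v A hv hN hA hne).D m w = v w.1.1 := by
  funext k
  have h : (fam2 u v A hv hN hA hne).D m w k = ⌊(2 : ℝ) ^ m * ((v w.1.1 k : ℝ) / 2 ^ m)⌋ := rfl
  rw [h, mul_div_cancel₀ _ (by positivity : (2 : ℝ) ^ m ≠ 0), Int.floor_intCast]

lemma fam2_X (w : Om m A) : (fam2 u v A hv hN hA hne).X m w =
    rd (pos (2 ^ m) (u w.1.1) (v w.1.1) ((w.1.2 : ℕ) : ℤ)) := by
  funext k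
  have h : (fam2 u v A hv hN hA hne).X m w k = ⌊(2 : ℝ) ^ m * (u w.1.1 k / 2 ^ m +
    (((w.1.2 : ℕ) : ℝ) / 2 ^ m) * ((v w.1.1 k : ℝ) / 2 ^ m))⌋ := rfl
  have h' : rd (pos (2 ^ m) (u w.1.1) (v w.1.1) ((w.1.2 : ℕ) : ℤ)) k =
    ⌊u w.1.1 k + ((((w.1.2 : ℕ) : ℤ) : ℝ) / ((2 ^ m : ℕ) : ℝ)) * (v w.1.1 k : ℝ)⌋ := rfl
  rw [h, h']
  congr 1
  push_cast
  field_simp

lemma line2_iff (hinj : Function.Injective v) (w w' : Om m A) :
    (fam2 u v A hv hN hA hne).l w = (fam2 u v A hv hN hA hne).l w' ↔ w.1.1 = w'.1.1 := by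
  constructor
  · intro h
    have h2 : (fam2 u v A hv hN hA hne).d w = (fam2 u v A hv hN hA hne).d w' :=
      (Prod.ext_iff.mp h).2
    apply hinj
    rw [← fam2_D (u := u) hv hN hA hne w, ← fam2_D (u := u) hv hN hA hne w']
    show fl m ((fam2 u v A hv hN hA hne).d w) = fl m ((fam2 u v A hv hN hA hne).d w')
    rw [h2]
  · intro h
    show ((fam2 u v A hv hN hA hne).u w, (fam2 u v A hv hN hA hne).d w) =
      ((fam2 u v A hv hN hA hne).u w', (fam2 u v A hv hN hA hne).d w')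
    have e1 : (fam2 u v A hv hN hA hne).u w = (fam2 u v A hv hN hA hne).u w' := by
      show (fun k => u w.1.1 k / 2 ^ m) = fun k => u w'.1.1 k / 2 ^ m
      rw [h]
    have e2 : (fam2 u v A hv hN hA hne).d w = (fam2 u v A hv hN hA hne).d w' := by
      show (fun k => (v w.1.1 k : ℝ) / 2 ^ m) = fun k => (v w'.1.1 k : ℝ) / 2 ^ m
      rw [h]
    rw [e1, e2]

include hN hA hne in
open Classical in
/-- The law of a variable which is equivalent to the line. -/
lemma law_line {S : Type} (f : Om m A → S) (hf : ∀ w w' : Om m A, f w = f w' ↔ w.1.1 = w'.1.1)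
    (w : Om m A) : law (fun w' : Om m A => wt A w'.1.1) f (f w) = (N : ℝ)⁻¹ := by
  unfold law
  have h1 : ∀ w' : Om m A, (if f w' = f w then wt A w'.1.1 else 0) =
      if w'.1.1 = w.1.1 then wt A w'.1.1 else 0 := by
    intro w'
    by_cases h : w'.1.1 = w.1.1
    · rw [if_pos h, if_pos ((hf w' w).mpr h)]
    · rw [if_neg h, if_neg fun h' => h ((hf w' w).mp h')]
  rw [Finset.sum_congr rfl fun w' _ => h1 w', sum_fib hA (wt A)]
  have h2 : (0 : ℝ) < (A w.1.1).card := by exact_mod_cast (hne w.1.1).card_pos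
  have h3 : (0 : ℝ) < N := by exact_mod_cast hN
  unfold wt
  field_simp

/-- Entropy of the direction. -/
lemma fam2_HD (hinj : Function.Injective v) :
    Real.log N ≤ CH (fam2 u v A hv hN hA hne).p ((fam2 u v A hv hN hA hne).D m)
      (fam2 u v A hv hN hA hne).Z := by
  have hNr : (0 : ℝ) < N := by exact_mod_cast hN
  have hp := (fam2 u v A hv hN hA hne).isLaw
  refine CH_lower' (Ω := Om m A) hp _ _ hNr fun (w : Om m A) _ => ?_
  have h1 := law_line hN hA hne (fun w' : Om m A => ((fam2 u v A hv hN hA hne).D m w',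
    (fam2 u v A hv hN hA hne).Z w')) (by
      intro w w'
      constructor
      · intro h
        have h2 : (fam2 u v A hv hN hA hne).D m w = (fam2 u v A hv hN hA hne).D m w' :=
          (Prod.ext_iff.mp h).1
        rw [fam2_D, fam2_D] at h2
        exact hinj h2
      · intro h
        refine Prod.ext ?_ rfl
        show (fam2 u v A hv hN hA hne).D m w = (fam2 u v A hv hN hA hne).D m w'
        rw [fam2_D, fam2_D, h]) w
  have h2 : law (fun w' : Om m A => wt A w'.1.1) (fam2 u v A hv hN hA hne).Z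
      ((fam2 u v A hv hN hA hne).Z w) = 1 := by
    unfold law
    have h3 : ∀ w' : Om m A, (fam2 u v A hv hN hA hne).Z w' = (fam2 u v A hv hN hA hne).Z w :=
      fun _ => rfl
    rw [Finset.sum_congr rfl fun w' _ => if_pos (h3 w')]
    exact hp.sum_one
  refine (le_of_eq ?_).trans h2.ge
  refine (congrArg (fun z => (N : ℝ) * z) h1).trans ?_
  exact mul_inv_cancel₀ hNr.ne'

/-- Entropy of the time given the line. -/
lemma fam2_T (hinj : Function.Injective v) {b : ℝ}
    (hb : 0 < b) (hcard : ∀ i, b ≤ (A i).card) :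
    Real.log b ≤ CH (fam2 u v A hv hN hA hne).p (fam2 u v A hv hN hA hne).T
      (fun ω => ((fam2 u v A hv hN hA hne).l ω, (fam2 u v A hv hN hA hne).Z ω)) := by
  classical
  have hNr : (0 : ℝ) < N := by exact_mod_cast hN
  have hp := (fam2 u v A hv hN hA hne).isLaw
  refine CH_lower' (Ω := Om m A) hp _ _ hb fun (w : Om m A) _ => ?_
  have h1 := law_line hN hA hne (fun w' : Om m A => ((fam2 u v A hv hN hA hne).l w',
    (fam2 u v A hv hN hA hne).Z w')) (by
      intro w w'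
      constructor
      · intro h
        exact (line2_iff (u := u) hv hN hA hne hinj w w').mp (Prod.ext_iff.mp h).1
      · intro h
        exact Prod.ext ((line2_iff (u := u) hv hN hA hne hinj w w').mpr h) rfl) w
  refine le_trans ?_ h1.ge
  have h2 : law (fun w' : Om m A => wt A w'.1.1) (fun w' : Om m A =>
      ((fam2 u v A hv hN hA hne).T w', ((fam2 u v A hv hN hA hne).l w',
        (fam2 u v A hv hN hA hne).Z w'))) ((fam2 u v A hv hN hA hne).T w,
        ((fam2 u v A hv hN hA hne).l w, (fam2 u v A hv hN hA hne).Z w)) = wt A w.1.1 := by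
    refine law_inj (Ω := Om m A) _ _ ?_ w
    intro w w' h'
    have k1 : (fam2 u v A hv hN hA hne).T w = (fam2 u v A hv hN hA hne).T w' :=
      (Prod.ext_iff.mp h').1
    have k2 : (fam2 u v A hv hN hA hne).l w = (fam2 u v A hv hN hA hne).l w' :=
      (Prod.ext_iff.mp (Prod.ext_iff.mp h').2).1
    exact Subtype.ext (Prod.ext ((line2_iff (u := u) hv hN hA hne hinj w w').mp k2)
      (Fin.ext k1))
  refine (mul_le_mul_of_nonneg_left h2.le hb.le).trans ?_
  have h4 : (0 : ℝ) < (A w.1.1).card := by exact_mod_cast (hne w.1.1).card_pos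
  unfold wt
  rw [mul_inv, mul_left_comm]
  have h5 : b * ((A w.1.1).card : ℝ)⁻¹ ≤ 1 := by
    rw [← div_eq_mul_inv, div_le_one h4]
    exact hcard _
  calc (N : ℝ)⁻¹ * (b * ((A w.1.1).card : ℝ)⁻¹) ≤ (N : ℝ)⁻¹ * 1 := by gcongr
    _ = _ := mul_one _

open Classical in
/-- Entropy of the positions and times. -/
lemma fam2_HX :
    CH (fam2 u v A hv hN hA hne).p (fun ω => ((fam2 u v A hv hN hA hne).X m ω,
      (fam2 u v A hv hN hA hne).T ω)) (fam2 u v A hv hN hA hne).Z ≤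
      Real.log (∑ j ∈ Finset.Ico 0 (2 ^ m : ℤ),
        (((univ.filter fun i => j ∈ A i).image fun i =>
          rd (pos (2 ^ m) (u i) (v i) j)).card : ℝ)) := by
  have hp := (fam2 u v A hv hN hA hne).isLaw
  obtain ⟨F, hF⟩ : ∃ F : Finset (((Fin d → ℤ) × ℕ) × Unit),
    F = (Finset.Ico 0 (2 ^ m : ℤ)).biUnion fun j =>
      (((univ.filter fun i => j ∈ A i).image fun i =>
          rd (pos (2 ^ m) (u i) (v i) j)).image fun x => ((x, j.toNat), ())) := ⟨_, rfl⟩
  obtain ⟨f, hf⟩ : ∃ f : Om m A → ((Fin d → ℤ) × ℕ) × Unit,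
    f = fun w => ((rd (pos (2 ^ m) (u w.1.1) (v w.1.1) ((w.1.2 : ℕ) : ℤ)),
        ((w.1.2 : ℕ) : ℤ).toNat), ()) := ⟨_, rfl⟩
  have hfun : @Eq (Om m A → ((Fin d → ℤ) × ℕ) × Unit)
      (fun ω => (((fam2 u v A hv hN hA hne).X m ω, (fam2 u v A hv hN hA hne).T ω),
        (fam2 u v A hv hN hA hne).Z ω)) f := by
    rw [hf]
    funext w
    refine Prod.ext (Prod.ext (fam2_X hv hN hA hne w) ?_) rfl
    exact (Int.toNat_natCast _).symm
  have hmem : ∀ w : Om m A, f w ∈ F := by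
    intro w
    rw [hf, hF]
    refine Finset.mem_biUnion.mpr ⟨((w.1.2 : ℕ) : ℤ), hA _ w.2, ?_⟩
    refine Finset.mem_image.mpr ⟨_, ?_, rfl⟩
    exact Finset.mem_image_of_mem (fun i => rd (pos (2 ^ m) (u i) (v i) ((w.1.2 : ℕ) : ℤ)))
        (Finset.mem_filter.mpr ⟨Finset.mem_univ _, w.2⟩)
  have hnO : Nonempty (Om m A) := by
    obtain ⟨j, hj⟩ := hne ⟨0, hN⟩
    have hj' := Finset.mem_Ico.mp (hA _ hj)
    have hlt : j.toNat < 2 ^ m := by
      have : ((j.toNat : ℕ) : ℤ) < ((2 ^ m : ℕ) : ℤ) := by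
        rw [Int.toNat_of_nonneg hj'.1]
        push_cast
        exact hj'.2
      exact_mod_cast this
    refine ⟨⟨(⟨0, hN⟩, ⟨j.toNat, hlt⟩), ?_⟩⟩
    simp only
    rw [Int.toNat_of_nonneg hj'.1]
    exact hj
  have hne' : F.Nonempty := by
    obtain ⟨w⟩ := hnO
    exact ⟨_, hmem w⟩
  have h1 : (F.card : ℝ) ≤ ∑ j ∈ Finset.Ico 0 (2 ^ m : ℤ),
        (((univ.filter fun i => j ∈ A i).image fun i =>
          rd (pos (2 ^ m) (u i) (v i) j)).card : ℝ) := by
    have h2 : F.card ≤ ∑ j ∈ Finset.Ico 0 (2 ^ m : ℤ),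
        ((univ.filter fun i => j ∈ A i).image fun i =>
          rd (pos (2 ^ m) (u i) (v i) j)).card := by
      rw [hF]
      refine Finset.card_biUnion_le.trans (Finset.sum_le_sum fun j _ => ?_)
      exact Finset.card_image_le
    exact_mod_cast h2
  have h2 := H_le_log_card (Ω := Om m A) hp.nonneg hp.sum_one f F (fun ω _ => hmem ω)
  rw [← hfun] at h2
  have h3 : (0 : ℝ) < F.card := by exact_mod_cast Finset.card_pos.mpr hne'
  have h4 : 0 ≤ H (fam2 u v A hv hN hA hne).p (fam2 u v A hv hN hA hne).Z :=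
    H_nonneg hp.nonneg hp.sum_one _
  have h5 := h2.trans (Real.log_le_log h3 h1)
  refine le_trans ?_ h5
  unfold CH
  exact sub_le_self _ h4

end

/-- The discrete form follows from the maximal entropy inequality. -/
theorem denseCountP_of_MB {d : ℕ} {β : ℝ} (hβ : 0 ≤ β) (h : MB d β) :
    Pool.Agent.H53.Dns.DenseCountP d 1 β := by
  classical
  intro ε hε
  have hlog : 0 < Real.log 2 := Real.log_pos (by norm_num)
  obtain ⟨J₀, hJ⟩ := h (ε * Real.log 2) (by positivity)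
  obtain ⟨c, hc⟩ : ∃ c : ℝ, c = (3 ^ d * 2 ^ (J₀ * (d + 1)))⁻¹ := ⟨_, rfl⟩
  have hc0 : 0 < c := by rw [hc]; positivity
  have hc1 : c * (3 ^ d * 2 ^ (J₀ * (d + 1))) = 1 := by
    rw [hc]; exact inv_mul_cancel₀ (by positivity)
  have h3d : (1 : ℝ) ≤ 3 ^ d := one_le_pow₀ (by norm_num)
  have h2J : (1 : ℝ) ≤ 2 ^ (J₀ * (d + 1)) := one_le_pow₀ (by norm_num)
  have hc3 : c ≤ 1 := by
    calc c = c * (1 * 1) := by ring
      _ ≤ c * (3 ^ d * 2 ^ (J₀ * (d + 1))) := by gcongr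
      _ = 1 := hc1
  refine ⟨c, hc0, ?_⟩
  intro m N u v A κ hκ hinj hv hA hcard
  obtain ⟨Sg, hS⟩ : ∃ x : ℝ, x = ∑ j ∈ Finset.Ico 0 (2 ^ m : ℤ),
        (((univ.filter fun i => j ∈ A i).image fun i =>
          rd (pos (2 ^ m) (u i) (v i) j)).card : ℝ) := ⟨_, rfl⟩
  rw [← hS]
  have hS0 : 0 ≤ Sg := by rw [hS]; exact Finset.sum_nonneg fun _ _ => Nat.cast_nonneg _
  rw [div_one, Real.rpow_one]
  rcases Nat.eq_zero_or_pos N with hN | hN
  · rw [hN, Nat.cast_zero, mul_zero, mul_zero]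
    exact hS0
  have hW : (0 : ℝ) < 2 ^ m := by positivity
  have hκ1 : κ ≤ 1 := by
    have h1 := (hcard ⟨0, hN⟩).trans (card_le_pow hA ⟨0, hN⟩)
    have h2 : κ * 2 ^ m ≤ 1 * 2 ^ m := by linarith
    exact le_of_mul_le_mul_right h2 hW
  have hNle := card_lines hinj hv
  have hNr : (0 : ℝ) < N := by exact_mod_cast hN
  have hne : ∀ i, (A i).Nonempty := by
    intro i
    rw [← Finset.card_pos]
    have := lt_of_lt_of_le (by positivity) (hcard i)
    exact_mod_cast this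
  have hεle : ((2 : ℝ) ^ m) ^ (-ε) ≤ 1 :=
    Real.rpow_le_one_of_one_le_of_nonpos (one_le_pow₀ (by norm_num)) (by linarith)
  have hε0 : 0 < ((2 : ℝ) ^ m) ^ (-ε) := by positivity
  have hκP1 : κ ^ β ≤ 1 := Real.rpow_le_one hκ.le hκ1 hβ
  have hκP0 : 0 < κ ^ β := by positivity
  have hS1 : 1 ≤ Sg := by
    obtain ⟨j, hj⟩ := hne ⟨0, hN⟩
    have h1 : (1 : ℝ) ≤ (((univ.filter fun i => j ∈ A i).image fun i =>
          rd (pos (2 ^ m) (u i) (v i) j)).card : ℝ) := by
      have h2 : rd (pos (2 ^ m) (u ⟨0, hN⟩) (v ⟨0, hN⟩) j) ∈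
          ((univ.filter fun i => j ∈ A i).image fun i =>
          rd (pos (2 ^ m) (u i) (v i) j)) :=
        Finset.mem_image_of_mem (fun i => rd (pos (2 ^ m) (u i) (v i) j))
          (Finset.mem_filter.mpr ⟨Finset.mem_univ _, hj⟩)
      exact_mod_cast Finset.card_pos.mpr ⟨_, h2⟩
    rw [hS]
    refine h1.trans ?_
    exact Finset.single_le_sum (f := fun j : ℤ => (((univ.filter fun i => j ∈ A i).image fun i =>
          rd (pos (2 ^ m) (u i) (v i) j)).card : ℝ)) (fun _ _ => Nat.cast_nonneg _) (hA _ hj)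
  by_cases hm : m < J₀
  · -- few scales
    have h1 : (2 : ℝ) ^ m * 2 ^ (m * d) ≤ 2 ^ (J₀ * (d + 1)) := by
      rw [← pow_add]
      apply pow_le_pow_right₀ (by norm_num)
      have : m * (d + 1) ≤ J₀ * (d + 1) := Nat.mul_le_mul_right _ hm.le
      calc m + m * d = m * (d + 1) := by ring
        _ ≤ _ := this
    calc c * ((2 : ℝ) ^ m) ^ (-ε) * (2 ^ m * κ ^ β * N) ≤
          c * 1 * (2 ^ m * 1 * (3 ^ d * 2 ^ (m * d))) := by gcongr
      _ = c * (3 ^ d * (2 ^ m * 2 ^ (m * d))) := by ring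
      _ ≤ c * (3 ^ d * 2 ^ (J₀ * (d + 1))) := by gcongr
      _ = 1 := hc1
      _ ≤ Sg := hS1
  rw [not_lt] at hm
  have hV := hJ m hm (fam2 u v A hv hN hA hne)
  have h1 := fam2_HD (u := u) hv hN hA hne hinj
  have h2 := fam2_T (u := u) hv hN hA hne hinj (b := κ * 2 ^ m) (by positivity) hcard
  have h3 := fam2_HX (u := u) hv hN hA hne
  rw [← hS] at h3
  rw [Real.log_mul hκ.ne' hW.ne', Real.log_pow] at h2
  have h4 : β * ((m : ℝ) * Real.log 2 - CH (fam2 u v A hv hN hA hne).p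
      (fam2 u v A hv hN hA hne).T (fun ω => ((fam2 u v A hv hN hA hne).l ω,
        (fam2 u v A hv hN hA hne).Z ω))) ≤ β * (-Real.log κ) :=
    mul_le_mul_of_nonneg_left (by linarith) hβ
  have h5 : Real.log (N * 2 ^ m * κ ^ β * ((2 : ℝ) ^ m) ^ (-ε)) ≤ Real.log Sg := by
    rw [Real.log_mul (by positivity) (by positivity), Real.log_mul (by positivity) (by positivity),
      Real.log_mul (by positivity) (by positivity), Real.log_rpow hW, Real.log_pow,
      Real.log_rpow hκ]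
    linarith
  have h6 : N * 2 ^ m * κ ^ β * ((2 : ℝ) ^ m) ^ (-ε) ≤ Sg :=
    (Real.log_le_log_iff (by positivity) (by linarith)).mp h5
  calc c * ((2 : ℝ) ^ m) ^ (-ε) * (2 ^ m * κ ^ β * N) ≤
        1 * ((2 : ℝ) ^ m) ^ (-ε) * (2 ^ m * κ ^ β * N) := by gcongr
    _ = N * 2 ^ m * κ ^ β * ((2 : ℝ) ^ m) ^ (-ε) := by ring
    _ ≤ Sg := h6

/-- The form for tubes with shadings of arbitrary density. -/
theorem restrictedP_of_MB {d : ℕ} {β : ℝ} (hβ : 1 + (d : ℝ) ≤ β) (h : MB d β) :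
    Pool.Agent.H53.Dns.RestrictedP d 1 β := by
  have hd : (0 : ℝ) ≤ d := Nat.cast_nonneg d
  exact Pool.Agent.H53.Dns.restrictedP_of_count le_rfl (by rwa [div_one])
    (denseCountP_of_MB (by linarith) h)

/-- **The inequality for tubes without any loss** follows from the maximal entropy inequality with
the constant `n = d + 1`. -/
theorem lossless_of_MB {d : ℕ} (hd : 1 ≤ d) (h : MB d (1 + (d : ℝ))) {q : ℝ}
    (hq : 1 + 1 / (d : ℝ) < q) : ∃ C : ℝ, Pool.Agent.H53.Kak.Loss d q 0 C := by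
  have h1 : Restricted d 1 := by
    apply Pool.Agent.H53.Dns.restricted_of_P
    have := restrictedP_of_MB le_rfl h
    rwa [div_one]
  exact Pool.Agent.H53.Kak.lossless_of_restricted hd le_rfl h1 hq

end Pool.KFIN
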