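import Pool.Agent.H9.KA.Defs

/-!
# From the entropy inequality `KP d` to the number of cells met by lines with dense sets of times
-/

set_option autoImplicit false

namespace Pool.KFIN

open Finset Real
open Pool.Agent.H49.Ent Pool.Agent.H32.Dense Pool.STK

/-- The counting inequality with the loss `ε`, the power `P` of the density, and a constant. -/
def CountE (d : ℕ) (ε P c : ℝ) : Prop :=
  ∀ (m N : ℕ) (u : Fin N → Fin d → ℝ) (v : Fin N → Fin d → ℤ)
    (A : Fin N → Finset ℤ) (κ : ℝ), 0 < κ → Function.Injective v →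
    (∀ i k, |v i k| ≤ 2 ^ m) → (∀ i, A i ⊆ Finset.Ico 0 (2 ^ m : ℤ)) →
    (∀ i, κ * 2 ^ m ≤ (A i).card) →
    c * ((2 : ℝ) ^ m) ^ (-ε) * (2 ^ m * κ ^ P * (N : ℝ) ^ (1 / (1 : ℝ))) ≤
      ∑ j ∈ Finset.Ico 0 (2 ^ m : ℤ),
        (((univ.filter fun i => j ∈ A i).image fun i => rd (pos (2 ^ m) (u i) (v i) j)).card : ℝ)

section family

variable {d m N : ℕ} (u : Fin N → Fin d → ℝ) (v : Fin N → Fin d → ℤ) (A : Fin N → Finset ℤ)

/-- Pairs of a line and a time. -/
abbrev Om (m : ℕ) {N : ℕ} (A : Fin N → Finset ℤ) : Type :=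
  {w : Fin N × Fin (2 ^ m) // ((w.2 : ℕ) : ℤ) ∈ A w.1}

open Classical in
lemma card_fib (hA : ∀ i, A i ⊆ Finset.Ico 0 (2 ^ m : ℤ)) (i : Fin N) :
    (univ.filter fun w : Om m A => w.1.1 = i).card = (A i).card := by
  refine Finset.card_bij (fun w _ => ((w.1.2 : ℕ) : ℤ)) ?_ ?_ ?_
  · intro w hw
    rw [Finset.mem_filter] at hw
    rw [← hw.2]
    exact w.2
  · intro w hw w' hw' h
    rw [Finset.mem_filter] at hw hw'
    have h1 : w.1.1 = w'.1.1 := hw.2.trans hw'.2.symm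
    have h2 : w.1.2 = w'.1.2 := Fin.ext (Int.natCast_inj.mp h)
    exact Subtype.ext (Prod.ext h1 h2)
  · intro j hj
    have hj' := Finset.mem_Ico.mp (hA i hj)
    have hlt : j.toNat < 2 ^ m := by
      have : ((j.toNat : ℕ) : ℤ) < ((2 ^ m : ℕ) : ℤ) := by
        rw [Int.toNat_of_nonneg hj'.1]
        push_cast
        exact hj'.2
      exact_mod_cast this
    refine ⟨⟨(i, ⟨j.toNat, hlt⟩), ?_⟩, ?_, ?_⟩
    · simp only
      rw [Int.toNat_of_nonneg hj'.1]
      exact hj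
    · simp
    · exact Int.toNat_of_nonneg hj'.1

end family

lemma card_Om_pos {m N : ℕ} {A : Fin N → Finset ℤ} (hne : Nonempty (Om m A)) :
    (0 : ℝ) < (Fintype.card (Om m A) : ℝ) := by
  exact_mod_cast Fintype.card_pos

/-- The family of lines of the counting problem. -/
noncomputable def fam {d m N : ℕ} (u : Fin N → Fin d → ℝ) (v : Fin N → Fin d → ℤ)
    (A : Fin N → Finset ℤ) (hv : ∀ i k, |v i k| ≤ 2 ^ m) (hne : Nonempty (Om m A)) :
    Pool.KA.Fam d m where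
  Ω := Om m A
  ζ := Unit
  fin := inferInstance
  p := fun _ => (Fintype.card (Om m A) : ℝ)⁻¹
  u := fun w k => u w.1.1 k / 2 ^ m
  d := fun w k => (v w.1.1 k : ℝ) / 2 ^ m
  T := fun w => w.1.2
  Z := fun _ => ()
  isLaw := by
    refine ⟨fun _ => by positivity, ?_⟩
    rw [Finset.sum_const, nsmul_eq_mul, Finset.card_univ]
    exact mul_inv_cancel₀ (card_Om_pos hne).ne'
  dir := fun w k => by
    rw [abs_div, abs_of_pos (by positivity : (0 : ℝ) < 2 ^ m), div_le_one (by positivity)]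
    have := hv w.1.1 k
    have h2 : ((|v w.1.1 k| : ℤ) : ℝ) ≤ ((2 ^ m : ℤ) : ℝ) := Int.cast_le.mpr this
    rw [Int.cast_abs] at h2
    push_cast at h2
    exact h2
  tim := fun w => w.1.2.2

open Classical in
/-- The law of a variable under the uniform law. -/
lemma law_unif {Ω S : Type} [Fintype Ω] (f : Ω → S) (s : S) (c : ℝ) :
    law (fun _ : Ω => c) f s = (univ.filter fun w => f w = s).card * c := by
  unfold law
  rw [← Finset.sum_filter, Finset.sum_const, nsmul_eq_mul]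

section

variable {d m N : ℕ} {u : Fin N → Fin d → ℝ} {v : Fin N → Fin d → ℤ} {A : Fin N → Finset ℤ}
  (hv : ∀ i k, |v i k| ≤ 2 ^ m) (hne : Nonempty (Om m A))

/-- The rounded direction is the integer vector. -/
lemma fam_D (w : Om m A) : (fam u v A hv hne).D m w = v w.1.1 := by
  funext k
  have h : (fam u v A hv hne).D m w k = ⌊(2 : ℝ) ^ m * ((v w.1.1 k : ℝ) / 2 ^ m)⌋ := rfl
  rw [h, mul_div_cancel₀ _ (by positivity : (2 : ℝ) ^ m ≠ 0), Int.floor_intCast]

/-- The rounded position. -/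
lemma fam_X (w : Om m A) : (fam u v A hv hne).X m w =
    rd (pos (2 ^ m) (u w.1.1) (v w.1.1) ((w.1.2 : ℕ) : ℤ)) := by
  funext k
  have h : (fam u v A hv hne).X m w k = ⌊(2 : ℝ) ^ m * (u w.1.1 k / 2 ^ m +
    (((w.1.2 : ℕ) : ℝ) / 2 ^ m) * ((v w.1.1 k : ℝ) / 2 ^ m))⌋ := rfl
  have h' : rd (pos (2 ^ m) (u w.1.1) (v w.1.1) ((w.1.2 : ℕ) : ℤ)) k =
    ⌊u w.1.1 k + ((((w.1.2 : ℕ) : ℤ) : ℝ) / ((2 ^ m : ℕ) : ℝ)) * (v w.1.1 k : ℝ)⌋ := rfl
  rw [h, h']
  congr 1
  push_cast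
  field_simp

/-- Lower bound for a conditional entropy under a uniform law. -/
lemma CH_lower {Ω S T : Type} [Fintype Ω] {c : ℝ} (hp : IsLaw (fun _ : Ω => c)) (X : Ω → S)
    (Z : Ω → T) {b : ℝ} (hb : 0 < b)
    (h : ∀ ω, ∃ F G : Finset Ω, (∀ w, X w = X ω → Z w = Z ω → w ∈ F) ∧
      (∀ w ∈ G, Z w = Z ω) ∧ b * F.card ≤ (G.card : ℝ)) :
    Real.log b ≤ CH (fun _ : Ω => c) X Z := by
  classical
  rw [CH_eq_neg_sum hp.nonneg]
  have hb1 : Ex (fun _ : Ω => c) (fun _ => Real.log b) = Real.log b := Ex_const hp.sum_one _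
  rw [← hb1]
  refine Ex_mono hp.nonneg fun w hw => ?_
  have hc : 0 < c := hw
  obtain ⟨F, G, hF, hG, hFG⟩ := h w
  have h1 : law (fun _ : Ω => c) (fun w' => (X w', Z w')) (X w, Z w) ≤ F.card * c := by
    rw [law_unif]
    refine mul_le_mul_of_nonneg_right (Nat.cast_le.mpr
      (Finset.card_le_card fun w' hw' => ?_)) hc.le
    have h2 : X w' = X w ∧ Z w' = Z w := by simpa using hw'
    exact hF w' h2.1 h2.2
  have h2 : G.card * c ≤ law (fun _ : Ω => c) Z (Z w) := by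
    rw [law_unif]
    exact mul_le_mul_of_nonneg_right (Nat.cast_le.mpr (Finset.card_le_card fun w' hw' =>
      Finset.mem_filter.mpr ⟨Finset.mem_univ _, hG w' hw'⟩)) hc.le
  have h3 : 0 < law (fun _ : Ω => c) (fun w' => (X w', Z w')) (X w, Z w) :=
    law_pos hp.nonneg (fun w' => (X w', Z w')) hw
  rw [← Real.log_inv, inv_div]
  refine Real.log_le_log hb ?_
  rw [le_div_iff₀ h3]
  calc b * _ ≤ b * (F.card * c) := by gcongr
    _ = b * F.card * c := by ring
    _ ≤ G.card * c := by gcongr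
    _ ≤ _ := h2

include hv hne in
/-- Equality of lines. -/
lemma line_iff (hinj : Function.Injective v) (w w' : Om m A) :
    (fam u v A hv hne).l w = (fam u v A hv hne).l w' ↔ w.1.1 = w'.1.1 := by
  constructor
  · intro h
    have h2 : (fam u v A hv hne).d w = (fam u v A hv hne).d w' := (Prod.ext_iff.mp h).2
    apply hinj
    rw [← fam_D (u := u) hv hne w, ← fam_D (u := u) hv hne w']
    show fl m ((fam u v A hv hne).d w) = fl m ((fam u v A hv hne).d w')
    rw [h2]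
  · intro h
    show ((fam u v A hv hne).u w, (fam u v A hv hne).d w) =
      ((fam u v A hv hne).u w', (fam u v A hv hne).d w')
    have e1 : (fam u v A hv hne).u w = (fam u v A hv hne).u w' := by
      show (fun k => u w.1.1 k / 2 ^ m) = fun k => u w'.1.1 k / 2 ^ m
      rw [h]
    have e2 : (fam u v A hv hne).d w = (fam u v A hv hne).d w' := by
      show (fun k => (v w.1.1 k : ℝ) / 2 ^ m) = fun k => (v w'.1.1 k : ℝ) / 2 ^ m
      rw [h]
    rw [e1, e2]

open Classical in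
/-- Entropy of the time given the line. -/
lemma fam_T (hinj : Function.Injective v) (hA : ∀ i, A i ⊆ Finset.Ico 0 (2 ^ m : ℤ)) {b : ℝ}
    (hb : 0 < b) (hcard : ∀ i, b ≤ (A i).card) :
    Real.log b ≤ CH (fam u v A hv hne).p (fam u v A hv hne).T
      (fun ω => ((fam u v A hv hne).l ω, (fam u v A hv hne).Z ω)) := by
  refine CH_lower (Ω := Om m A) (fam u v A hv hne).isLaw _ _ hb fun (w : Om m A) => ?_
  refine ⟨{w}, univ.filter fun w' : Om m A => w'.1.1 = w.1.1, ?_, ?_, ?_⟩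
  · intro (w' : Om m A) h1 h2
    have h3 := (line_iff (u := u) hv hne hinj w' w).mp (Prod.ext_iff.mp h2).1
    exact Finset.mem_singleton.mpr (Subtype.ext (Prod.ext h3 (Fin.ext h1)))
  · intro (w' : Om m A) h1
    exact Prod.ext ((line_iff (u := u) hv hne hinj w' w).mpr (Finset.mem_filter.mp h1).2) rfl
  · rw [Finset.card_singleton, Nat.cast_one, mul_one, card_fib A hA]
    exact hcard _

open Classical in
/-- The number of pairs. -/
lemma card_Om (hA : ∀ i, A i ⊆ Finset.Ico 0 (2 ^ m : ℤ)) {b : ℝ} (hcard : ∀ i, b ≤ (A i).card) :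
    N * b ≤ ((univ : Finset (Om m A)).card : ℝ) := by
  have h : (univ : Finset (Om m A)).card = ∑ i : Fin N, (A i).card := by
    rw [Finset.card_eq_sum_card_fiberwise (f := fun w : Om m A => w.1.1) (t := univ)
      (fun _ _ => Finset.mem_coe.mpr (Finset.mem_univ _))]
    exact Finset.sum_congr rfl fun i _ => card_fib A hA i
  rw [h]
  push_cast
  calc (N : ℝ) * b = ∑ _i : Fin N, b := by
        rw [Finset.sum_const, Finset.card_univ, Fintype.card_fin, nsmul_eq_mul]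
    _ ≤ _ := Finset.sum_le_sum fun i _ => hcard i

lemma card_le_pow (hA : ∀ i, A i ⊆ Finset.Ico 0 (2 ^ m : ℤ)) (i : Fin N) :
    ((A i).card : ℝ) ≤ 2 ^ m := by
  have h1 := Finset.card_le_card (hA i)
  rw [Int.card_Ico, sub_zero] at h1
  have h2 : (2 ^ m : ℤ).toNat = 2 ^ m := by
    have : (2 ^ m : ℤ) = ((2 ^ m : ℕ) : ℤ) := by push_cast; rfl
    rw [this, Int.toNat_natCast]
  rw [h2] at h1
  exact_mod_cast h1

open Classical in
/-- Entropy of the direction. -/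
lemma fam_HD (hinj : Function.Injective v) (hA : ∀ i, A i ⊆ Finset.Ico 0 (2 ^ m : ℤ)) {κ : ℝ}
    (hκ : 0 < κ) (hcard : ∀ i, κ * 2 ^ m ≤ (A i).card) :
    Real.log (κ * N) ≤ CH (fam u v A hv hne).p ((fam u v A hv hne).D m)
      (fam u v A hv hne).Z := by
  have hN : (0 : ℝ) < N := by
    obtain ⟨w⟩ := hne
    have := w.1.1.pos
    exact_mod_cast this
  refine CH_lower (Ω := Om m A) (fam u v A hv hne).isLaw _ _ (by positivity)
    fun (w : Om m A) => ?_
  refine ⟨univ.filter fun w' : Om m A => w'.1.1 = w.1.1, univ, ?_, fun _ _ => rfl, ?_⟩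
  · intro (w' : Om m A) h1 _
    have h2 : (fam u v A hv hne).D m w' = (fam u v A hv hne).D m w := h1
    rw [fam_D, fam_D] at h2
    exact Finset.mem_filter.mpr ⟨Finset.mem_univ _, hinj h2⟩
  rw [card_fib A hA]
  calc κ * N * (A w.1.1).card ≤ κ * N * 2 ^ m := by
        gcongr
        exact card_le_pow hA _
    _ = N * (κ * 2 ^ m) := by ring
    _ ≤ _ := card_Om hA hcard

open Classical in
/-- Entropy of the time. -/
lemma fam_HT (hA : ∀ i, A i ⊆ Finset.Ico 0 (2 ^ m : ℤ)) {κ : ℝ}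
    (hκ : 0 < κ) (hcard : ∀ i, κ * 2 ^ m ≤ (A i).card) :
    Real.log (κ * 2 ^ m) ≤ H (fam u v A hv hne).p (fam u v A hv hne).W := by
  have h : Real.log (κ * 2 ^ m) ≤ CH (fam u v A hv hne).p (fam u v A hv hne).W
      (fam u v A hv hne).Z := by
    refine CH_lower (Ω := Om m A) (fam u v A hv hne).isLaw _ _ (by positivity)
      fun (w : Om m A) => ?_
    refine ⟨univ.filter fun w' : Om m A => w'.1.2 = w.1.2, univ, ?_, fun _ _ => rfl, ?_⟩
    · intro (w' : Om m A) h1 _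
      have h2 : (w'.1.2 : ℕ) = (w.1.2 : ℕ) := (Prod.ext_iff.mp h1).1
      exact Finset.mem_filter.mpr ⟨Finset.mem_univ _, Fin.ext h2⟩
    have e1 : ((univ.filter fun w' : Om m A => w'.1.2 = w.1.2).card : ℝ) ≤ N := by
      have h0 : (univ.filter fun w' : Om m A => w'.1.2 = w.1.2).card ≤
          (univ : Finset (Fin N)).card := by
        refine Finset.card_le_card_of_injOn (fun w' : Om m A => w'.1.1)
          (fun _ _ => Finset.mem_coe.mpr (Finset.mem_univ _)) ?_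
        intro w₁ h₁ w₂ h₂ h12
        rw [Finset.mem_coe, Finset.mem_filter] at h₁ h₂
        exact Subtype.ext (Prod.ext h12 (h₁.2.trans h₂.2.symm))
      rw [Finset.card_univ, Fintype.card_fin] at h0
      exact_mod_cast h0
    calc κ * 2 ^ m * _ ≤ κ * 2 ^ m * N := by gcongr
      _ = N * (κ * 2 ^ m) := by ring
      _ ≤ _ := card_Om hA hcard
  have hp := (fam u v A hv hne).isLaw
  have hz : H (fam u v A hv hne).p (fam u v A hv hne).Z = 0 :=
    H_const hp.sum_one ()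
  have hc : H (fam u v A hv hne).p (fun ω => ((fam u v A hv hne).W ω,
      (fam u v A hv hne).Z ω)) = H (fam u v A hv hne).p (fam u v A hv hne).W :=
    H_congr hp.nonneg (fun _ _ _ _ h => Prod.ext h rfl) (fun _ _ _ _ h => (Prod.ext_iff.mp h).1)
  rw [CH, hz, hc, sub_zero] at h
  exact h

open Classical in
/-- Entropy of the positions and times. -/
lemma fam_HX (hA : ∀ i, A i ⊆ Finset.Ico 0 (2 ^ m : ℤ)) :
    H (fam u v A hv hne).p (fun ω => ((fam u v A hv hne).X m ω, (fam u v A hv hne).W ω)) ≤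
      Real.log (∑ j ∈ Finset.Ico 0 (2 ^ m : ℤ),
        (((univ.filter fun i => j ∈ A i).image fun i =>
          rd (pos (2 ^ m) (u i) (v i) j)).card : ℝ)) := by
  have hp := (fam u v A hv hne).isLaw
  obtain ⟨F, hF⟩ : ∃ F : Finset ((Fin d → ℤ) × (ℕ × Unit)),
    F = (Finset.Ico 0 (2 ^ m : ℤ)).biUnion fun j =>
      (((univ.filter fun i => j ∈ A i).image fun i =>
          rd (pos (2 ^ m) (u i) (v i) j)).image fun x => (x, (j.toNat, ()))) := ⟨_, rfl⟩
  obtain ⟨f, hf⟩ : ∃ f : Om m A → (Fin d → ℤ) × (ℕ × Unit),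
    f = fun w => (rd (pos (2 ^ m) (u w.1.1) (v w.1.1) ((w.1.2 : ℕ) : ℤ)),
        (((w.1.2 : ℕ) : ℤ).toNat, ())) := ⟨_, rfl⟩
  have hfun : @Eq (Om m A → (Fin d → ℤ) × (ℕ × Unit))
      (fun ω => ((fam u v A hv hne).X m ω, (fam u v A hv hne).W ω)) f := by
    rw [hf]
    funext w
    refine Prod.ext (fam_X hv hne w) (Prod.ext ?_ rfl)
    exact (Int.toNat_natCast _).symm
  have hmem : ∀ w : Om m A, f w ∈ F := by
    intro w
    rw [hf, hF]
    refine Finset.mem_biUnion.mpr ⟨((w.1.2 : ℕ) : ℤ), hA _ w.2, ?_⟩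
    refine Finset.mem_image.mpr ⟨_, ?_, rfl⟩
    exact Finset.mem_image_of_mem (fun i => rd (pos (2 ^ m) (u i) (v i) ((w.1.2 : ℕ) : ℤ)))
        (Finset.mem_filter.mpr ⟨Finset.mem_univ _, w.2⟩)
  have hne' : F.Nonempty := by
    obtain ⟨w⟩ := hne
    exact ⟨_, hmem w⟩
  have h1 : (F.card : ℝ) ≤ ∑ j ∈ Finset.Ico 0 (2 ^ m : ℤ),
        (((univ.filter fun i => j ∈ A i).image fun i =>
          rd (pos (2 ^ m) (u i) (v i) j)).card : ℝ) := by
    have h2 : F.card ≤ ∑ j ∈ Finset.Ico 0 (2 ^ m : ℤ),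
        ((univ.filter fun i => j ∈ A i).image fun i =>
          rd (pos (2 ^ m) (u i) (v i) j)).card := by
      rw [hF]
      refine Finset.card_biUnion_le.trans (Finset.sum_le_sum fun j _ => ?_)
      exact Finset.card_image_le
    exact_mod_cast h2
  have h2 := H_le_log_card (Ω := Om m A) hp.nonneg hp.sum_one f F (fun ω _ => hmem ω)
  rw [← hfun] at h2
  have h3 : (0 : ℝ) < F.card := by exact_mod_cast Finset.card_pos.mpr hne'
  exact h2.trans (Real.log_le_log h3 h1)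

/-- The violation bounds the number of cells from below. -/
lemma fam_V (hinj : Function.Injective v) (hA : ∀ i, A i ⊆ Finset.Ico 0 (2 ^ m : ℤ)) {κ : ℝ}
    (hκ : 0 < κ) (hcard : ∀ i, κ * 2 ^ m ≤ (A i).card) :
    Real.log (κ * N) + Real.log (κ * 2 ^ m) - (fam u v A hv hne).V m ≤
      Real.log (∑ j ∈ Finset.Ico 0 (2 ^ m : ℤ),
        (((univ.filter fun i => j ∈ A i).image fun i =>
          rd (pos (2 ^ m) (u i) (v i) j)).card : ℝ)) := by
  have h1 := fam_HD (u := u) hv hne hinj hA hκ hcard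
  have h2 := fam_HT (u := u) hv hne hA hκ hcard
  have h3 := fam_HX (u := u) hv hne hA
  have h4 : (fam u v A hv hne).V m = CH (fam u v A hv hne).p ((fam u v A hv hne).D m)
      (fam u v A hv hne).Z - CH (fam u v A hv hne).p ((fam u v A hv hne).X m)
      (fam u v A hv hne).W - d * (((m : ℝ) - m) * Real.log 2) := rfl
  have h5 : CH (fam u v A hv hne).p ((fam u v A hv hne).X m)
      (fam u v A hv hne).W = H (fam u v A hv hne).p (fun ω => ((fam u v A hv hne).X m ω,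
        (fam u v A hv hne).W ω)) - H (fam u v A hv hne).p (fam u v A hv hne).W := rfl
  rw [sub_self, zero_mul, mul_zero, sub_zero] at h4
  linarith

end

/-- The number of lines. -/
lemma card_lines {d m N : ℕ} {v : Fin N → Fin d → ℤ} (hinj : Function.Injective v)
    (hv : ∀ i k, |v i k| ≤ 2 ^ m) : (N : ℝ) ≤ 3 ^ d * 2 ^ (m * d) := by
  have h1 : (univ : Finset (Fin N)).card ≤
      (Fintype.piFinset fun _ : Fin d => Finset.Icc (-(2 ^ m : ℤ)) (2 ^ m)).card := by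
    refine Finset.card_le_card_of_injOn v ?_ hinj.injOn
    intro i _
    rw [Finset.mem_coe, Fintype.mem_piFinset]
    intro k
    rw [Finset.mem_Icc]
    exact abs_le.mp (hv i k)
  rw [Finset.card_univ, Fintype.card_fin, Fintype.card_piFinset, Finset.prod_const,
    Finset.card_univ, Fintype.card_fin, Int.card_Icc] at h1
  have h2 : ((2 ^ m : ℤ) + 1 - -(2 ^ m)).toNat ≤ 3 * 2 ^ m := by
    have h3 : (1 : ℤ) ≤ 2 ^ m := one_le_pow₀ (by norm_num)
    have h4 : ((3 * 2 ^ m : ℕ) : ℤ) = 3 * 2 ^ m := by push_cast; rfl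
    omega
  have h3 : N ≤ (3 * 2 ^ m) ^ d := h1.trans (Nat.pow_le_pow_left h2 d)
  rw [mul_pow, ← pow_mul] at h3
  exact_mod_cast h3

/-- The counting inequality follows from the entropy inequality. -/
theorem count_of_KP {d : ℕ} (h : Pool.KA.KP d) {ε : ℝ} (hε : 0 < ε) :
    ∃ P c : ℝ, 1 + (d : ℝ) ≤ P ∧ 2 ≤ P ∧ 0 < c ∧ CountE d ε P c := by
  have hlog : 0 < Real.log 2 := Real.log_pos (by norm_num)
  obtain ⟨θ, hθ, J₀, hJ⟩ := h (ε * Real.log 2) (by positivity)
  obtain ⟨P, hP⟩ : ∃ P : ℝ, P = max (1 + (d : ℝ)) (max 2 (((d : ℝ) + 1) * Real.log 2 / θ)) :=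
    ⟨_, rfl⟩
  have hP1 : 1 + (d : ℝ) ≤ P := hP ▸ le_max_left _ _
  have hP2 : 2 ≤ P := hP ▸ (le_max_left _ _).trans (le_max_right _ _)
  have hP3 : ((d : ℝ) + 1) * Real.log 2 ≤ θ * P := by
    have : ((d : ℝ) + 1) * Real.log 2 / θ ≤ P := hP ▸ (le_max_right _ _).trans (le_max_right _ _)
    rw [div_le_iff₀ hθ] at this
    linarith
  obtain ⟨c, hc⟩ : ∃ c : ℝ, c = (3 ^ d * 2 ^ (J₀ * (d + 1)))⁻¹ := ⟨_, rfl⟩
  have hc0 : 0 < c := by rw [hc]; positivity
  have hc1 : c * (3 ^ d * 2 ^ (J₀ * (d + 1))) = 1 := by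
    rw [hc]; exact inv_mul_cancel₀ (by positivity)
  have h3d : (1 : ℝ) ≤ 3 ^ d := one_le_pow₀ (by norm_num)
  have h2J : (1 : ℝ) ≤ 2 ^ (J₀ * (d + 1)) := one_le_pow₀ (by norm_num)
  have hc2 : c * 3 ^ d ≤ 1 := by
    calc c * 3 ^ d = c * (3 ^ d * 1) := by ring
      _ ≤ c * (3 ^ d * 2 ^ (J₀ * (d + 1))) := by gcongr
      _ = 1 := hc1
  have hc3 : c ≤ 1 := by
    calc c = c * 1 := (mul_one c).symm
      _ ≤ c * 3 ^ d := by gcongr
      _ ≤ 1 := hc2
  refine ⟨P, c, hP1, hP2, hc0, ?_⟩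
  intro m N u v A κ hκ hinj hv hA hcard
  obtain ⟨Sg, hS⟩ : ∃ x : ℝ, x = ∑ j ∈ Finset.Ico 0 (2 ^ m : ℤ),
        (((univ.filter fun i => j ∈ A i).image fun i =>
          rd (pos (2 ^ m) (u i) (v i) j)).card : ℝ) := ⟨_, rfl⟩
  rw [← hS]
  have hS0 : 0 ≤ Sg := by rw [hS]; exact Finset.sum_nonneg fun _ _ => Nat.cast_nonneg _
  rw [div_one, Real.rpow_one]
  rcases Nat.eq_zero_or_pos N with hN | hN
  · rw [hN, Nat.cast_zero, mul_zero, mul_zero]
    exact hS0
  have hW : (0 : ℝ) < 2 ^ m := by positivity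
  have hκ1 : κ ≤ 1 := by
    have h1 := (hcard ⟨0, hN⟩).trans (card_le_pow hA ⟨0, hN⟩)
    have h2 : κ * 2 ^ m ≤ 1 * 2 ^ m := by linarith
    exact le_of_mul_le_mul_right h2 hW
  have hNle := card_lines hinj hv
  have hne : Nonempty (Om m A) := by
    have h1 : 0 < (A ⟨0, hN⟩).card := by
      have := lt_of_lt_of_le (by positivity) (hcard ⟨0, hN⟩)
      exact_mod_cast this
    have h2 : (univ.filter fun w : Om m A => w.1.1 = (⟨0, hN⟩ : Fin N)).card =
      (A ⟨0, hN⟩).card := card_fib A hA _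
    rw [← h2] at h1
    obtain ⟨w, -⟩ := Finset.card_pos.mp h1
    exact ⟨w⟩
  have hNr : (0 : ℝ) < N := by exact_mod_cast hN
  have hεle : ((2 : ℝ) ^ m) ^ (-ε) ≤ 1 :=
    Real.rpow_le_one_of_one_le_of_nonpos (one_le_pow₀ (by norm_num)) (by linarith)
  have hε0 : 0 < ((2 : ℝ) ^ m) ^ (-ε) := by positivity
  have hκP1 : κ ^ P ≤ 1 := Real.rpow_le_one hκ.le hκ1 (by linarith)
  have hκP0 : 0 < κ ^ P := by positivity
  have hS1 : 1 ≤ Sg := by
    obtain ⟨w⟩ := hne
    have h1 : (1 : ℝ) ≤ (((univ.filter fun i => ((w.1.2 : ℕ) : ℤ) ∈ A i).image fun i =>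
          rd (pos (2 ^ m) (u i) (v i) ((w.1.2 : ℕ) : ℤ))).card : ℝ) := by
      have h2 : rd (pos (2 ^ m) (u w.1.1) (v w.1.1) ((w.1.2 : ℕ) : ℤ)) ∈
          ((univ.filter fun i => ((w.1.2 : ℕ) : ℤ) ∈ A i).image fun i =>
          rd (pos (2 ^ m) (u i) (v i) ((w.1.2 : ℕ) : ℤ))) :=
        Finset.mem_image_of_mem (fun i => rd (pos (2 ^ m) (u i) (v i) ((w.1.2 : ℕ) : ℤ)))
          (Finset.mem_filter.mpr ⟨Finset.mem_univ _, w.2⟩)
      exact_mod_cast Finset.card_pos.mpr ⟨_, h2⟩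
    rw [hS]
    refine h1.trans ?_
    exact Finset.single_le_sum (f := fun j : ℤ => (((univ.filter fun i => j ∈ A i).image fun i =>
          rd (pos (2 ^ m) (u i) (v i) j)).card : ℝ)) (fun _ _ => Nat.cast_nonneg _) (hA _ w.2)
  by_cases hm : m < J₀
  · -- few scales
    have h1 : (2 : ℝ) ^ m * 2 ^ (m * d) ≤ 2 ^ (J₀ * (d + 1)) := by
      rw [← pow_add]
      apply pow_le_pow_right₀ (by norm_num)
      have : m * (d + 1) ≤ J₀ * (d + 1) := Nat.mul_le_mul_right _ hm.le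
      calc m + m * d = m * (d + 1) := by ring
        _ ≤ _ := this
    calc c * ((2 : ℝ) ^ m) ^ (-ε) * (2 ^ m * κ ^ P * N) ≤
          c * 1 * (2 ^ m * 1 * (3 ^ d * 2 ^ (m * d))) := by gcongr
      _ = c * (3 ^ d * (2 ^ m * 2 ^ (m * d))) := by ring
      _ ≤ c * (3 ^ d * 2 ^ (J₀ * (d + 1))) := by gcongr
      _ = 1 := hc1
      _ ≤ Sg := hS1
  rw [not_lt] at hm
  by_cases hk : κ < Real.exp (-(θ * m))
  · -- small density
    have h1 : κ ^ P ≤ ((2 : ℝ) ^ m * 2 ^ (m * d))⁻¹ := by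
      have h2 : κ ^ P ≤ (Real.exp (-(θ * m))) ^ P := by
        apply Real.rpow_le_rpow hκ.le hk.le (by linarith)
      refine h2.trans ?_
      rw [← Real.exp_mul, ← pow_add, ← Real.rpow_natCast 2, ← Real.rpow_neg (by norm_num),
        Real.rpow_def_of_pos (by norm_num : (0 : ℝ) < 2)]
      apply Real.exp_le_exp.mpr
      push_cast
      have h3 : ((d : ℝ) + 1) * Real.log 2 * m ≤ θ * P * m := by gcongr
      linarith
    calc c * ((2 : ℝ) ^ m) ^ (-ε) * (2 ^ m * κ ^ P * N) ≤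
          c * 1 * (2 ^ m * ((2 : ℝ) ^ m * 2 ^ (m * d))⁻¹ * (3 ^ d * 2 ^ (m * d))) := by gcongr
      _ = c * 3 ^ d := by
          field_simp
      _ ≤ 1 := hc2
      _ ≤ Sg := hS1
  rw [not_lt] at hk
  have hV : (fam u v A hv hne).V m ≤ ε * Real.log 2 * m := by
    apply hJ m hm
    have h1 := fam_T (u := u) hv hne hinj hA (b := κ * 2 ^ m) (by positivity) hcard
    refine le_trans ?_ h1
    rw [Real.log_mul hκ.ne' hW.ne', Real.log_pow]
    have h2 := Real.log_le_log (Real.exp_pos _) hk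
    rw [Real.log_exp] at h2
    linarith
  have h1 := fam_V (u := u) hv hne hinj hA hκ hcard
  rw [← hS] at h1
  have h2 : Real.log (κ ^ 2 * N * 2 ^ m * ((2 : ℝ) ^ m) ^ (-ε)) ≤ Real.log Sg := by
    rw [Real.log_mul (by positivity) (by positivity), Real.log_mul (by positivity) (by positivity),
      Real.log_mul (by positivity) (by positivity), Real.log_rpow hW, Real.log_pow, Real.log_pow]
    rw [Real.log_mul (by positivity) (by positivity), Real.log_mul (by positivity) (by positivity),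
      Real.log_pow] at h1
    push_cast
    nlinarith
  have h3 : κ ^ 2 * N * 2 ^ m * ((2 : ℝ) ^ m) ^ (-ε) ≤ Sg :=
    (Real.log_le_log_iff (by positivity) (by linarith)).mp h2
  have h4 : κ ^ P ≤ κ ^ 2 := by
    rw [← Real.rpow_natCast κ 2]
    exact Real.rpow_le_rpow_of_exponent_ge hκ hκ1 (by push_cast; exact hP2)
  calc c * ((2 : ℝ) ^ m) ^ (-ε) * (2 ^ m * κ ^ P * N) ≤
        1 * ((2 : ℝ) ^ m) ^ (-ε) * (2 ^ m * κ ^ 2 * N) := by gcongr
    _ = κ ^ 2 * N * 2 ^ m * ((2 : ℝ) ^ m) ^ (-ε) := by ring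
    _ ≤ Sg := h3

end Pool.KFIN
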