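import Pool.Agent.H1.STK2.TG2
import Pool.Agent.H53.Kak.Basic

/-!
# From density bounds to the typical multiplicity of a family of tubes
-/

set_option autoImplicit false

namespace Pool.KFIN

open Finset Real MeasureTheory
open scoped RealInnerProductSpace ENNReal
open Pool.STK (mlt)
open Pool.STK.TG2
open Pool.Agent.H53.Kak (E tube)

variable {d N : ℕ}

/-- A constant. -/
noncomputable def cd (d : ℕ) : ℝ := (2 / d) ^ d

lemma cd_pos (hd : 1 ≤ d) : 0 < cd d := by
  have : (0 : ℝ) < d := by exact_mod_cast hd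
  unfold cd
  positivity

lemma le_vol (hd : 1 ≤ d) {δ : ℝ} (hδ : 0 < δ) (c e : E d) (he : ‖e‖ = 1) :
    ENNReal.ofReal (cd d * δ ^ d) ≤ volume (tube δ c e) := by
  have h8 := le_volume_tube hd δ hδ.le c e he
  have h9 : (2 * (δ / d)) ^ d = cd d * δ ^ d := by
    rw [cd, ← mul_pow]
    congr 1
    ring
  rw [h9] at h8
  exact h8

lemma le_sum_vol (hd : 1 ≤ d) {δ : ℝ} (hδ : 0 < δ) (c e : Fin N → E d) (hu : ∀ i, ‖e i‖ = 1) :
    ENNReal.ofReal (cd d * (N * δ ^ d)) ≤ ∑ i, volume (tube δ (c i) (e i)) := by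
  have hc := cd_pos hd
  calc ENNReal.ofReal (cd d * (N * δ ^ d)) = ∑ _i : Fin N, ENNReal.ofReal (cd d * δ ^ d) := by
        rw [Finset.sum_const, Finset.card_univ, Fintype.card_fin, nsmul_eq_mul,
          ← ENNReal.ofReal_natCast, ← ENNReal.ofReal_mul (by positivity)]
        congr 1
        ring
    _ ≤ _ := Finset.sum_le_sum fun i _ => le_vol hd hδ (c i) (e i) (hu i)

lemma sum_vol_le {δ : ℝ} (hδ : 0 < δ) (c e : Fin N → E d) (hu : ∀ i, ‖e i‖ = 1)
    (S : Finset (Fin N)) :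
    ∑ i ∈ S, volume (tube δ (c i) (e i)) ≤ ENNReal.ofReal (2 ^ d * (S.card * δ ^ d)) := by
  calc ∑ i ∈ S, volume (tube δ (c i) (e i)) ≤ ∑ _i ∈ S, ENNReal.ofReal ((2 * δ) ^ d) :=
        Finset.sum_le_sum fun i _ =>
          Pool.Agent.H53.Kak.volume_tube_le δ hδ.le (c i) (e i) (hu i)
    _ = _ := by
        rw [Finset.sum_const, nsmul_eq_mul,
          ← ENNReal.ofReal_natCast, ← ENNReal.ofReal_mul (by positivity)]
        congr 1
        rw [mul_pow]
        ring

/-- Few tubes have a large part where many tubes meet. -/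
theorem typical (hd : 1 ≤ d) {δ : ℝ} (hδ : 0 < δ) (c e : Fin N → E d) (hu : ∀ i, ‖e i‖ = 1)
    {η B b Λ : ℝ} (hη : 0 < η) (hb0 : 0 < b) (hΛ : 0 < Λ)
    (hX : ∀ (S : Finset (Fin N)) (X : Set (E d)), MeasurableSet X →
      (∀ i ∈ S, ENNReal.ofReal (cd d * η / 2 * δ ^ d) ≤ volume (X ∩ tube δ (c i) (e i))) →
      ENNReal.ofReal (B * (δ ^ d * (S.card : ℝ) ^ b)) ≤ volume X)
    (hΛB : 2 ^ d * (N : ℝ) ^ (1 - b) * (2 ^ (d + 1) / (cd d * η)) ^ b < Λ * B) :
    ∑ i, volume (tube δ (c i) (e i) \ {x | mlt δ c e x ≤ Λ}) ≤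
      ENNReal.ofReal η * ∑ i, volume (tube δ (c i) (e i)) := by
  classical
  have hc := cd_pos hd
  have hmm := measurable_mlt δ c e
  by_contra hcon
  rw [not_le] at hcon
  obtain ⟨X, hXdef⟩ : ∃ X : Set (E d), X = {x | mlt δ c e x ≤ Λ}ᶜ := ⟨_, rfl⟩
  have hXm : MeasurableSet X := by
    rw [hXdef]; exact (measurableSet_le hmm measurable_const).compl
  have hdiff : ∀ i, tube δ (c i) (e i) \ {x | mlt δ c e x ≤ Λ} = X ∩ tube δ (c i) (e i) := by
    intro i
    rw [hXdef, Set.inter_comm]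
    rfl
  simp only [hdiff] at hcon
  have hN : 0 < N := by
    rcases Nat.eq_zero_or_pos N with h0 | h0
    · subst h0
      simp at hcon
    · exact h0
  have hNr : (0 : ℝ) < N := by exact_mod_cast hN
  obtain ⟨lam, hlam⟩ : ∃ lam : ℝ, lam = cd d * η / 2 := ⟨_, rfl⟩
  have hlam0 : 0 < lam := by rw [hlam]; positivity
  obtain ⟨S, hS⟩ : ∃ S : Finset (Fin N), S = univ.filter fun i =>
    ENNReal.ofReal (lam * δ ^ d) ≤ volume (X ∩ tube δ (c i) (e i)) := ⟨_, rfl⟩
  have h1 : ENNReal.ofReal (cd d * η * (N * δ ^ d)) <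
      ∑ i, volume (X ∩ tube δ (c i) (e i)) := by
    refine lt_of_le_of_lt ?_ hcon
    have h2 := le_sum_vol hd hδ c e hu
    calc ENNReal.ofReal (cd d * η * (N * δ ^ d)) =
          ENNReal.ofReal η * ENNReal.ofReal (cd d * (N * δ ^ d)) := by
          rw [← ENNReal.ofReal_mul hη.le]; congr 1; ring
      _ ≤ _ := by gcongr
  have h2 : ∑ i, volume (X ∩ tube δ (c i) (e i)) ≤
      ENNReal.ofReal (2 ^ d * (S.card * δ ^ d)) + ENNReal.ofReal (lam * (N * δ ^ d)) := by
    rw [← Finset.sum_filter_add_sum_filter_not univ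
      (fun i => ENNReal.ofReal (lam * δ ^ d) ≤ volume (X ∩ tube δ (c i) (e i))), ← hS]
    refine add_le_add ?_ ?_
    · exact (Finset.sum_le_sum fun i _ => measure_mono Set.inter_subset_right).trans
        (sum_vol_le hδ c e hu S)
    · calc _ ≤ ∑ _i ∈ univ.filter (fun i => ¬ ENNReal.ofReal (lam * δ ^ d) ≤
            volume (X ∩ tube δ (c i) (e i))), ENNReal.ofReal (lam * δ ^ d) :=
            Finset.sum_le_sum fun i hi => (not_le.mp (Finset.mem_filter.mp hi).2).le
        _ ≤ ∑ _i : Fin N, ENNReal.ofReal (lam * δ ^ d) :=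
            Finset.sum_le_sum_of_subset (Finset.filter_subset _ _)
        _ = _ := by
            rw [Finset.sum_const, Finset.card_univ, Fintype.card_fin, nsmul_eq_mul,
              ← ENNReal.ofReal_natCast, ← ENNReal.ofReal_mul (by positivity)]
            congr 1
            ring
  have h3 : lam * N ≤ 2 ^ d * S.card := by
    have h4 := h1.trans_le h2
    rw [← ENNReal.ofReal_add (by positivity) (by positivity),
      ENNReal.ofReal_lt_ofReal_iff_of_nonneg (by positivity)] at h4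
    have h5 : cd d * η = 2 * lam := by rw [hlam]; ring
    rw [h5] at h4
    have h6 : (lam * N) * δ ^ d < (2 ^ d * S.card) * δ ^ d := by linarith
    exact (lt_of_mul_lt_mul_right h6 (by positivity)).le
  have h4 := hX S X hXm (by
    intro i hi
    rw [hS] at hi
    rw [← hlam]
    exact (Finset.mem_filter.mp hi).2)
  have h5 : ENNReal.ofReal (Λ * (B * (δ ^ d * (S.card : ℝ) ^ b))) ≤
      ENNReal.ofReal (2 ^ d * (N * δ ^ d)) := by
    calc ENNReal.ofReal (Λ * (B * (δ ^ d * (S.card : ℝ) ^ b))) ≤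
          ENNReal.ofReal Λ * volume X := by
          rw [ENNReal.ofReal_mul hΛ.le]
          gcongr
      _ ≤ ∫⁻ x in X, ENNReal.ofReal (mlt δ c e x) := by
          rw [← setLIntegral_const]
          refine setLIntegral_mono' hXm fun x hx => ?_
          refine ENNReal.ofReal_le_ofReal ?_
          rw [hXdef] at hx
          have hx' : ¬ mlt δ c e x ≤ Λ := hx
          exact (not_le.mp hx').le
      _ ≤ ∑ i, volume (tube δ (c i) (e i)) := by
          rw [lintegral_mlt]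
          exact Finset.sum_le_sum fun i _ => measure_mono Set.inter_subset_left
      _ ≤ _ := by
          have := sum_vol_le hδ c e hu univ
          rwa [Finset.card_univ, Fintype.card_fin] at this
  have h6 := (ENNReal.ofReal_le_ofReal_iff (by positivity)).mp h5
  have h7 : (N : ℝ) ^ b ≤ (2 ^ (d + 1) / (cd d * η)) ^ b * (S.card : ℝ) ^ b := by
    rw [← Real.mul_rpow (by positivity) (by positivity)]
    refine Real.rpow_le_rpow hNr.le ?_ hb0.le
    rw [div_mul_eq_mul_div, le_div_iff₀ (by positivity)]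
    have h8 : cd d * η = 2 * lam := by rw [hlam]; ring
    rw [h8, pow_succ]
    linarith
  have h8 : (N : ℝ) ^ (1 - b) * (N : ℝ) ^ b = N := by
    rw [← Real.rpow_add hNr]
    simp
  have h9 : (0 : ℝ) < (S.card : ℝ) ^ b := by
    have : (0 : ℝ) < S.card := by
      by_contra h0
      have h0' : (S.card : ℝ) = 0 := le_antisymm (not_lt.mp h0) (Nat.cast_nonneg _)
      rw [h0', mul_zero] at h3
      have : 0 < lam * N := by positivity
      linarith
    positivity
  have hK : 0 < (2 ^ (d + 1) / (cd d * η)) ^ b := by positivity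
  have h10 : 2 ^ d * (N * δ ^ d) < Λ * (B * (δ ^ d * (S.card : ℝ) ^ b)) := by
    calc 2 ^ d * (N * δ ^ d) = 2 ^ d * (N : ℝ) ^ (1 - b) * (N : ℝ) ^ b * δ ^ d := by
          rw [mul_assoc (2 ^ d) _ ((N : ℝ) ^ b), h8]; ring
      _ ≤ 2 ^ d * (N : ℝ) ^ (1 - b) * ((2 ^ (d + 1) / (cd d * η)) ^ b * (S.card : ℝ) ^ b) *
          δ ^ d := by gcongr
      _ = (2 ^ d * (N : ℝ) ^ (1 - b) * (2 ^ (d + 1) / (cd d * η)) ^ b) *
          (δ ^ d * (S.card : ℝ) ^ b) := by ring
      _ < (Λ * B) * (δ ^ d * (S.card : ℝ) ^ b) := by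
          refine mul_lt_mul_of_pos_right hΛB (by positivity)
      _ = _ := by ring
  linarith

/-- The `L ^ q` norm on the set where few tubes meet. -/
theorem lq_bound {δ : ℝ} (hδ : 0 < δ) (c e : Fin N → E d)
    (hu : ∀ i, ‖e i‖ = 1) {Λ : ℝ} (hΛ : 1 ≤ Λ) {q : ℝ} (hq1 : 1 ≤ q) :
    eLpNorm (({x | mlt δ c e x ≤ Λ} : Set (E d)).indicator (mlt δ c e)) (ENNReal.ofReal q)
      volume ≤ ENNReal.ofReal (Λ ^ (1 - 1 / q) * (2 ^ d * (δ ^ ((d : ℝ) / q) *
        (N : ℝ) ^ (1 / q)))) := by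
  have h2d : (1 : ℝ) ≤ 2 ^ d := one_le_pow₀ (by norm_num)
  have hΛ0 : 0 < Λ := by linarith
  have hmm := measurable_mlt δ c e
  have hq0 : 0 < q := by linarith
  have hqE : ENNReal.ofReal q ≠ 0 := (ENNReal.ofReal_pos.2 hq0).ne'
  rw [eLpNorm_eq_lintegral_rpow_enorm_toReal hqE ENNReal.ofReal_ne_top,
    ENNReal.toReal_ofReal hq0.le]
  have h1 : ∫⁻ x, ‖({x | mlt δ c e x ≤ Λ} : Set (E d)).indicator (mlt δ c e) x‖ₑ ^ q ≤
      ENNReal.ofReal (Λ ^ (q - 1) * (2 ^ d * (N * δ ^ d))) := by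
    calc ∫⁻ x, ‖({x | mlt δ c e x ≤ Λ} : Set (E d)).indicator (mlt δ c e) x‖ₑ ^ q
        ≤ ∫⁻ x, ENNReal.ofReal (Λ ^ (q - 1)) * ENNReal.ofReal (mlt δ c e x) := by
          refine lintegral_mono fun x => ?_
          by_cases hx : x ∈ ({x | mlt δ c e x ≤ Λ} : Set (E d))
          · rw [Set.indicator_of_mem hx]
            have h0 := mlt_nonneg δ c e x
            rw [Real.enorm_of_nonneg h0, ENNReal.ofReal_rpow_of_nonneg h0 hq0.le,
              ← ENNReal.ofReal_mul (by positivity)]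
            refine ENNReal.ofReal_le_ofReal ?_
            rcases h0.eq_or_lt with h2 | h2
            · rw [← h2, Real.zero_rpow hq0.ne', mul_zero]
            · have h3 : mlt δ c e x ^ q = mlt δ c e x ^ (q - 1) * mlt δ c e x := by
                rw [← Real.rpow_add_one h2.ne']
                congr 1
                ring
              rw [h3]
              refine mul_le_mul_of_nonneg_right ?_ h0
              exact Real.rpow_le_rpow h0 hx (by linarith)
          · rw [Set.indicator_of_notMem hx, enorm_zero, ENNReal.zero_rpow_of_pos hq0]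
            exact bot_le
      _ = ENNReal.ofReal (Λ ^ (q - 1)) * ∑ i, volume (tube δ (c i) (e i)) := by
          rw [lintegral_const_mul _ hmm.ennreal_ofReal, ← setLIntegral_univ, lintegral_mlt]
          simp only [Set.inter_univ]
      _ ≤ ENNReal.ofReal (Λ ^ (q - 1)) * ENNReal.ofReal (2 ^ d * (N * δ ^ d)) := by
          have := sum_vol_le hδ c e hu univ
          rw [Finset.card_univ, Fintype.card_fin] at this
          gcongr
      _ = _ := by rw [← ENNReal.ofReal_mul (by positivity)]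
  have h4 : (ENNReal.ofReal (Λ ^ (q - 1) * (2 ^ d * (N * δ ^ d)))) ^ (1 / q) =
      ENNReal.ofReal ((Λ ^ (q - 1) * (2 ^ d * (N * δ ^ d))) ^ (1 / q)) :=
    ENNReal.ofReal_rpow_of_nonneg (by positivity) (by positivity)
  refine (ENNReal.rpow_le_rpow h1 (by positivity)).trans ?_
  rw [h4]
  refine ENNReal.ofReal_le_ofReal ?_
  have hN0 : (0 : ℝ) ≤ N := Nat.cast_nonneg N
  rw [Real.mul_rpow (by positivity) (by positivity), Real.mul_rpow (by positivity) (by positivity),
    Real.mul_rpow hN0 (by positivity), ← Real.rpow_mul hΛ0.le]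
  have k1 : (q - 1) * (1 / q) = 1 - 1 / q := by field_simp
  have hq2 : 1 / q ≤ 1 := by
    rw [div_le_one hq0]
    exact hq1
  have k2 : ((2 : ℝ) ^ d) ^ (1 / q) ≤ 2 ^ d := by
    calc ((2 : ℝ) ^ d) ^ (1 / q) ≤ ((2 : ℝ) ^ d) ^ (1 : ℝ) :=
          Real.rpow_le_rpow_of_exponent_le h2d hq2
      _ = 2 ^ d := Real.rpow_one _
  have k4 : (δ ^ d) ^ (1 / q) = δ ^ ((d : ℝ) / q) := by
    rw [← Real.rpow_natCast, ← Real.rpow_mul hδ.le]
    congr 1
    ring
  rw [k4, k1, mul_comm ((N : ℝ) ^ (1 / q))]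
  gcongr

/-- The union. -/
theorem union_bound (hd : 1 ≤ d) {δ : ℝ} (hδ : 0 < δ) (c e : Fin N → E d)
    (hu : ∀ i, ‖e i‖ = 1) {Λ η : ℝ} (hΛ : 0 < Λ) (hη : η ≤ 1 / 2)
    (h : ∑ i, volume (tube δ (c i) (e i) \ {x | mlt δ c e x ≤ Λ}) ≤
      ENNReal.ofReal η * ∑ i, volume (tube δ (c i) (e i))) :
    ENNReal.ofReal (cd d / (2 * Λ) * (N * δ ^ d)) ≤ volume (⋃ i, tube δ (c i) (e i)) := by
  classical
  have hc := cd_pos hd
  have hmm := measurable_mlt δ c e
  have hGm : MeasurableSet {x : E d | mlt δ c e x ≤ Λ} := measurableSet_le hmm measurable_const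
  obtain ⟨Sg, hSg⟩ : ∃ s : ℝ≥0∞, s = ∑ i, volume (tube δ (c i) (e i)) := ⟨_, rfl⟩
  have h1 := le_sum_vol hd hδ c e hu
  rw [← hSg] at h1 h
  have hfin : Sg ≠ ∞ := by
    rw [hSg]
    exact (lt_of_le_of_lt (sum_vol_le hδ c e hu univ) ENNReal.ofReal_lt_top).ne
  have h2 : Sg ≤ ∑ i, volume (tube δ (c i) (e i) ∩ {x | mlt δ c e x ≤ Λ}) +
      ∑ i, volume (tube δ (c i) (e i) \ {x | mlt δ c e x ≤ Λ}) := by
    rw [hSg, ← Finset.sum_add_distrib]
    exact Finset.sum_le_sum fun i _ => (measure_inter_add_sdiff _ hGm).ge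
  have h3 : ∑ i, volume (tube δ (c i) (e i) ∩ {x | mlt δ c e x ≤ Λ}) ≤
      ENNReal.ofReal Λ * volume (⋃ i, tube δ (c i) (e i)) := by
    rw [← lintegral_mlt]
    have hUm : MeasurableSet (⋃ i, tube δ (c i) (e i)) :=
      MeasurableSet.iUnion fun i => Pool.Agent.H53.Kak.measurableSet_tube δ (c i) (e i)
    calc ∫⁻ x in {x | mlt δ c e x ≤ Λ}, ENNReal.ofReal (mlt δ c e x)
        ≤ ∫⁻ x in {x | mlt δ c e x ≤ Λ}, (⋃ i, tube δ (c i) (e i)).indicator
            (fun _ => ENNReal.ofReal Λ) x := by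
          refine setLIntegral_mono' hGm fun x hx => ?_
          by_cases hxU : x ∈ ⋃ i, tube δ (c i) (e i)
          · rw [Set.indicator_of_mem hxU]
            exact ENNReal.ofReal_le_ofReal hx
          · rw [Set.indicator_of_notMem hxU]
            have : mlt δ c e x = 0 := by
              unfold mlt
              refine Finset.sum_eq_zero fun i _ => Set.indicator_of_notMem ?_ _
              intro hi
              exact hxU (Set.mem_iUnion.mpr ⟨i, hi⟩)
            rw [this, ENNReal.ofReal_zero]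
      _ ≤ ∫⁻ x, (⋃ i, tube δ (c i) (e i)).indicator (fun _ => ENNReal.ofReal Λ) x :=
          setLIntegral_le_lintegral _ _
      _ = _ := by rw [lintegral_indicator_const hUm]
  have h4 : ENNReal.ofReal η * Sg ≤ ENNReal.ofReal (1 / 2) * Sg := by gcongr
  have h5 : Sg ≤ ENNReal.ofReal Λ * volume (⋃ i, tube δ (c i) (e i)) +
      ENNReal.ofReal (1 / 2) * Sg := h2.trans (add_le_add h3 (h.trans h4))
  -- pass to real numbers
  have hUfin : volume (⋃ i, tube δ (c i) (e i)) ≠ ∞ := by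
    refine (lt_of_le_of_lt (measure_iUnion_le _) ?_).ne
    rw [tsum_fintype, ← hSg]
    exact hfin.lt_top
  obtain ⟨s, hs0, hs⟩ : ∃ s : ℝ, 0 ≤ s ∧ Sg = ENNReal.ofReal s :=
    ⟨Sg.toReal, ENNReal.toReal_nonneg, (ENNReal.ofReal_toReal hfin).symm⟩
  obtain ⟨u, hu0, hu'⟩ : ∃ u : ℝ, 0 ≤ u ∧ volume (⋃ i, tube δ (c i) (e i)) =
      ENNReal.ofReal u :=
    ⟨_, ENNReal.toReal_nonneg, (ENNReal.ofReal_toReal hUfin).symm⟩
  rw [hu', hs, ← ENNReal.ofReal_mul hΛ.le, ← ENNReal.ofReal_mul (by norm_num),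
    ← ENNReal.ofReal_add (by positivity) (by positivity),
    ENNReal.ofReal_le_ofReal_iff (by positivity)] at h5
  rw [hs, ENNReal.ofReal_le_ofReal_iff hs0] at h1
  rw [hu']
  refine ENNReal.ofReal_le_ofReal ?_
  rw [div_mul_eq_mul_div, div_le_iff₀ (by positivity)]
  nlinarith

end Pool.KFIN
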