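import Pool.Agent.H73.KFIN.Restr
import Pool.Agent.H73.KFIN.Typ

/-!
# From density bounds to typical multiplicities, `L ^ q` bounds and unions, with losses in `δ`
-/

set_option autoImplicit false

namespace Pool.KFIN

open Finset Real MeasureTheory
open scoped RealInnerProductSpace ENNReal
open Pool.STK (mlt)
open Pool.Agent.H53.Kak (E tube)
open Pool.Agent.H55.HDim (Dens)

variable {d : ℕ}

lemma cd_le_two (hd : 1 ≤ d) : cd d ≤ 2 := by
  unfold cd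
  have hd0 : (0 : ℝ) < d := by exact_mod_cast hd
  rcases Nat.lt_or_ge d 2 with h | h
  · have : d = 1 := by omega
    subst this
    norm_num
  · have h2 : (2 : ℝ) ≤ d := by exact_mod_cast h
    have : (2 / (d : ℝ)) ^ d ≤ 1 := pow_le_one₀ (by positivity) (by
      rw [div_le_one hd0]; exact h2)
    linarith

/-- **Typical multiplicities with losses in `δ`.** -/
theorem tubes_of_dens (hd : 1 ≤ d) (h : Dens d 1) {ε : ℝ} (hε : 0 < ε) :
    ∃ θ C : ℝ, 0 < θ ∧ 0 < C ∧ ∀ δ : ℝ, 0 < δ → δ < 1 → ∀ (N : ℕ) (c e : Fin N → E d),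
      (∀ i, ‖e i‖ = 1) → (∀ i j, i ≠ j → δ ≤ ‖e i - e j‖) →
      ∃ G : Set (E d), MeasurableSet G ∧
        ∑ i, volume (tube δ (c i) (e i) \ G) ≤
          ENNReal.ofReal (δ ^ θ) * ∑ i, volume (tube δ (c i) (e i)) ∧
        (∀ x ∈ G, mlt δ c e x ≤ C * δ ^ (-ε)) ∧
        (∀ q : ℝ, 1 + 1 / (d : ℝ) ≤ q →
          eLpNorm (G.indicator (mlt δ c e)) (ENNReal.ofReal q) volume ≤
            ENNReal.ofReal (C * δ ^ (-ε) * (δ ^ ((d : ℝ) / q) * (N : ℝ) ^ (1 - 1 / (q * d))))) ∧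
        ENNReal.ofReal (C⁻¹ * δ ^ ε * ((N : ℝ) * δ ^ d)) ≤
          volume (⋃ i, tube δ (c i) (e i)) := by
  classical
  have hd0 : (0 : ℝ) < d := by exact_mod_cast hd
  have hcd := cd_pos hd
  have hcd2 := cd_le_two hd
  obtain ⟨c₀, P₀, hc₀, hdens⟩ := h (ε / 2) (by linarith)
  obtain ⟨P, hP⟩ : ∃ P : ℝ, P = max P₀ 0 := ⟨_, rfl⟩
  have hP0 : 0 ≤ P := by rw [hP]; exact le_max_right _ _
  have hPP : P₀ ≤ P := by rw [hP]; exact le_max_left _ _
  obtain ⟨θ, hθ⟩ : ∃ θ : ℝ, θ = ε / (2 * (1 + P)) := ⟨_, rfl⟩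
  have hθ0 : 0 < θ := by rw [hθ]; positivity
  obtain ⟨K, hK⟩ : ∃ K : ℝ, K = 2 ^ d * (2 ^ (d + 1) * 2 / cd d) * 2 / (c₀ * (cd d / 4) ^ P) :=
    ⟨_, rfl⟩
  have hK0 : 0 < K := by rw [hK]; positivity
  have h2d : (1 : ℝ) ≤ 2 ^ d := one_le_pow₀ (by norm_num)
  obtain ⟨C, hC⟩ : ∃ C : ℝ, C = max ((K + 1) * 2 ^ d) (2 * (K + 1) / cd d) := ⟨_, rfl⟩
  have hC1 : (K + 1) * 2 ^ d ≤ C := by rw [hC]; exact le_max_left _ _
  have hC2 : 2 * (K + 1) / cd d ≤ C := by rw [hC]; exact le_max_right _ _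
  have hC3 : K + 1 ≤ C := le_trans (le_mul_of_one_le_right (by linarith) h2d) hC1
  have hC0 : 0 < C := by linarith
  refine ⟨θ, C, hθ0, hC0, ?_⟩
  intro δ hδ hδ1 N c e hu hsep
  have hδθ : 0 < δ ^ θ := by positivity
  have hδθ1 : δ ^ θ ≤ 1 := Real.rpow_le_one hδ.le hδ1.le hθ0.le
  obtain ⟨η, hη⟩ : ∃ η : ℝ, η = δ ^ θ / 2 := ⟨_, rfl⟩
  have hη0 : 0 < η := by rw [hη]; positivity
  have hη2 : η ≤ 1 / 2 := by rw [hη]; linarith
  have hδε1 : 1 ≤ δ ^ (-ε) := by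
    rw [Real.rpow_neg hδ.le]
    exact (one_le_inv₀ (by positivity)).mpr (Real.rpow_le_one hδ.le hδ1.le hε.le)
  obtain ⟨Λ, hΛ⟩ : ∃ Λ : ℝ, Λ = (K + 1) * δ ^ (-ε) := ⟨_, rfl⟩
  have hΛ0 : 0 < Λ := by rw [hΛ]; positivity
  have hΛ1 : 1 ≤ Λ := by
    rw [hΛ]
    nlinarith
  have hlam0 : 0 < cd d * η / 2 := by positivity
  have hlam1 : cd d * η / 2 ≤ 1 := by nlinarith
  have htyp := typical hd hδ c e hu (η := η) (b := 1) (Λ := Λ)
    (B := c₀ * δ ^ (ε / 2) * (cd d * η / 2) ^ P) hη0 one_pos hΛ0 (by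
      intro S X hXm hS
      have hF : Pool.Agent.H53.Kak.Fam δ e S :=
        ⟨fun i _ => hu i, fun i _ j _ hij => hsep i j hij⟩
      have h1 := hdens δ hδ hδ1 (Fin N) S c e hF X hXm (cd d * η / 2) hlam0 hlam1 hS
      refine le_trans (ENNReal.ofReal_le_ofReal ?_) h1
      have h2 : (cd d * η / 2) ^ P ≤ (cd d * η / 2) ^ P₀ :=
        Real.rpow_le_rpow_of_exponent_ge hlam0 hlam1 hPP
      calc c₀ * δ ^ (ε / 2) * (cd d * η / 2) ^ P * (δ ^ d * (S.card : ℝ) ^ (1 : ℝ)) ≤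
            c₀ * δ ^ (ε / 2) * (cd d * η / 2) ^ P₀ * (δ ^ d * (S.card : ℝ) ^ (1 : ℝ)) := by
            gcongr
        _ = _ := by ring) (by
      rw [sub_self, Real.rpow_zero, mul_one, Real.rpow_one]
      have h1 : (cd d * η / 2) ^ P = (cd d / 4) ^ P * δ ^ (θ * P) := by
        rw [Real.rpow_mul hδ.le, ← Real.mul_rpow (by positivity) (by positivity), hη]
        congr 1
        ring
      have h2 : 2 ^ (d + 1) / (cd d * η) = (2 ^ (d + 1) * 2 / cd d) * δ ^ (-θ) := by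
        rw [hη, Real.rpow_neg hδ.le]
        field_simp
      have h3 : δ ^ (-θ) = δ ^ (-ε) * (δ ^ (ε / 2) * δ ^ (θ * P)) := by
        rw [← Real.rpow_add hδ, ← Real.rpow_add hδ]
        congr 1
        rw [hθ]
        field_simp
        ring
      have h4 : K * (c₀ * (cd d / 4) ^ P) = 2 * (2 ^ d * (2 ^ (d + 1) * 2 / cd d)) := by
        rw [hK]
        field_simp
      have h5 : 0 < δ ^ (-ε) * (δ ^ (ε / 2) * δ ^ (θ * P)) := by positivity
      have h6 : 0 < 2 ^ d * (2 ^ (d + 1) * 2 / cd d) := by positivity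
      rw [h1, h2, h3, hΛ]
      calc 2 ^ d * ((2 ^ (d + 1) * 2 / cd d) * (δ ^ (-ε) * (δ ^ (ε / 2) * δ ^ (θ * P)))) =
            (2 ^ d * (2 ^ (d + 1) * 2 / cd d)) *
              (δ ^ (-ε) * (δ ^ (ε / 2) * δ ^ (θ * P))) := by ring
        _ < (2 * (2 ^ d * (2 ^ (d + 1) * 2 / cd d))) *
              (δ ^ (-ε) * (δ ^ (ε / 2) * δ ^ (θ * P))) :=
            mul_lt_mul_of_pos_right (by linarith) h5
        _ = (K * (c₀ * (cd d / 4) ^ P)) * (δ ^ (-ε) * (δ ^ (ε / 2) * δ ^ (θ * P))) := by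
            rw [h4]
        _ ≤ ((K + 1) * (c₀ * (cd d / 4) ^ P)) *
              (δ ^ (-ε) * (δ ^ (ε / 2) * δ ^ (θ * P))) := by gcongr; linarith
        _ = _ := by ring)
  have hmm := Pool.STK.TG2.measurable_mlt δ c e
  refine ⟨{x | mlt δ c e x ≤ Λ}, measurableSet_le hmm measurable_const, ?_, ?_, ?_, ?_⟩
  · refine htyp.trans ?_
    have : η ≤ δ ^ θ := by rw [hη]; linarith
    gcongr
  · intro x hx
    have h1 : mlt δ c e x ≤ Λ := hx
    refine h1.trans ?_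
    rw [hΛ]
    gcongr
  · intro q hq
    have hd' : 0 < 1 / (d : ℝ) := by positivity
    have hq1 : 1 ≤ q := by linarith
    have hq0 : 0 < q := by linarith
    refine (lq_bound hδ c e hu hΛ1 hq1).trans (ENNReal.ofReal_le_ofReal ?_)
    have k1 : Λ ^ (1 - 1 / q) ≤ Λ := by
      calc Λ ^ (1 - 1 / q) ≤ Λ ^ (1 : ℝ) := by
            refine Real.rpow_le_rpow_of_exponent_le hΛ1 ?_
            have : 0 < 1 / q := by positivity
            linarith
        _ = Λ := Real.rpow_one Λ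
    have k3 : (N : ℝ) ^ (1 / q) ≤ (N : ℝ) ^ (1 - 1 / (q * d)) := by
      rcases Nat.eq_zero_or_pos N with hN | hN
      · subst hN
        rw [Nat.cast_zero, Real.zero_rpow (by positivity)]
        exact Real.rpow_nonneg le_rfl _
      · have hN1 : (1 : ℝ) ≤ N := by exact_mod_cast hN
        refine Real.rpow_le_rpow_of_exponent_le hN1 ?_
        have h5 : 1 / q + 1 / (q * d) = (1 + 1 / d) / q := by
          field_simp
        have h6 : (1 + 1 / (d : ℝ)) / q ≤ 1 := by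
          rw [div_le_one hq0]
          exact hq
        linarith
    calc Λ ^ (1 - 1 / q) * (2 ^ d * (δ ^ ((d : ℝ) / q) * (N : ℝ) ^ (1 / q)))
        ≤ Λ * (2 ^ d * (δ ^ ((d : ℝ) / q) * (N : ℝ) ^ (1 - 1 / (q * d)))) := by gcongr
      _ = (K + 1) * 2 ^ d * δ ^ (-ε) * (δ ^ ((d : ℝ) / q) * (N : ℝ) ^ (1 - 1 / (q * d))) := by
          rw [hΛ]; ring
      _ ≤ _ := by gcongr
  · refine le_trans (ENNReal.ofReal_le_ofReal ?_) (union_bound hd hδ c e hu hΛ0 hη2 htyp)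
    refine mul_le_mul_of_nonneg_right ?_ (by positivity)
    have h1 : cd d / (2 * Λ) = (2 * (K + 1) / cd d)⁻¹ * δ ^ ε := by
      rw [hΛ, Real.rpow_neg hδ.le]
      field_simp
    rw [h1]
    have h2 : C⁻¹ ≤ (2 * (K + 1) / cd d)⁻¹ := inv_anti₀ (by positivity) hC2
    gcongr

end Pool.KFIN
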