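import Pool.Agent.H73.KFIN.Less
import Pool.Agent.H73.KFIN.Final1

/-!
# Density bounds and typical multiplicities without loss in `δ`
-/

set_option autoImplicit false

namespace Pool.KFIN

open Finset Real MeasureTheory Filter
open scoped RealInnerProductSpace ENNReal Topology
open Pool.STK (mlt)
open Pool.Agent.H53.Kak (E tube Fam)
open Pool.Agent.H32.Dense Pool.Agent.H53.Dns

variable {d : ℕ}

/-- Density bound for tubes with a small power of the number of tubes as the only loss. -/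
theorem densN_of_countN {ε P c₀ : ℝ} (hε : 0 < ε) (hε1 : ε < 1) (hP : 1 ≤ P) (hc : 0 < c₀)
    (h : CountN d ε P c₀) :
    ∃ c : ℝ, 0 < c ∧ ∀ δ : ℝ, 0 < δ → δ < 1 → ∀ (ι : Type) (S : Finset ι)
    (x₀ e : ι → E d), Fam δ e S → ∀ (X : Set (E d)), MeasurableSet X → ∀ lam : ℝ, 0 < lam →
    lam ≤ 1 →
    (∀ i ∈ S, ENNReal.ofReal (lam * δ ^ d) ≤ volume (X ∩ tube δ (x₀ i) (e i))) →
    ENNReal.ofReal (c * (lam ^ (P + 1) * δ ^ d * (S.card : ℝ) ^ (1 - ε))) ≤ volume X := by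
  have hd0 : (0 : ℝ) ≤ d := Nat.cast_nonneg d
  have hCv := Cv_pos d
  have hCw := one_le_Cw d
  have hCw0 : 0 < Cw d := by linarith
  have hη0 : 0 < 1 / (P + 1) := by positivity
  obtain ⟨m₀, hm₀⟩ : ∃ m₀ : ℕ, 10 * Cv d < 2 ^ m₀ := pow_unbounded_of_one_lt _ (by norm_num)
  obtain ⟨A₁, hA₁⟩ : ∃ A₁ : ℝ, A₁ = m₀ + 1 + 2 / (1 / (P + 1)) := ⟨_, rfl⟩
  have hA₁0 : 0 < A₁ := by rw [hA₁]; positivity
  obtain ⟨c₁, hc₁⟩ : ∃ c₁ : ℝ, c₁ = c₀ * (Cv d / 4) * (16 * Cv d) ^ (-P) * (Cw d)⁻¹ *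
    (2 * ((d : ℝ) + 1))⁻¹ := ⟨_, rfl⟩
  have hc₁0 : 0 < c₁ := by rw [hc₁]; positivity
  refine ⟨c₁ * (A₁ ^ (P + 1))⁻¹ / 2 / 11 ^ d, by positivity, ?_⟩
  intro δ hδ hδ1 ι S c e hF X hX lam hlam hlam1 hvol
  rcases S.eq_empty_or_nonempty with rfl | hSne
  · rw [Finset.card_empty, Nat.cast_zero, Real.zero_rpow (by linarith), mul_zero, mul_zero,
      ENNReal.ofReal_zero]
    exact bot_le
  have hl2 : 0 < lam / 2 := by positivity
  have hl21 : lam / 2 < 1 := by linarith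
  obtain ⟨S₁, hS1, hS2⟩ := Pool.Agent.H53.Kak.num_levels hl2 hl21 hη0 m₀
  rw [← hA₁] at hS2
  have hlinv : 1 < (lam / 2)⁻¹ := (one_lt_inv₀ hl2).mpr hl21
  have hS₁ : 0 < S₁ := by
    rcases Nat.eq_zero_or_pos S₁ with h0 | h0
    · rw [h0, pow_zero] at hS1
      have : (1 : ℝ) ≤ 2 ^ m₀ := one_le_pow₀ (by norm_num)
      nlinarith
    · exact h0
  have hS : 5 * (Cv d * (1 / 2) ^ S₁) ≤ lam / 2 := by
    have h1 : 10 * Cv d * (lam / 2)⁻¹ ≤ 2 ^ S₁ := by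
      refine le_trans ?_ hS1.le
      gcongr
    have h2 : 10 * Cv d ≤ lam / 2 * 2 ^ S₁ := by
      calc 10 * Cv d = lam / 2 * (10 * Cv d * (lam / 2)⁻¹) := by field_simp
        _ ≤ _ := by gcongr
    rw [one_div, inv_pow]
    have h3 : 5 * (Cv d * ((2 : ℝ) ^ S₁)⁻¹) ≤ lam / 2 / 2 := by
      rw [← div_eq_mul_inv, ← mul_div_assoc, div_le_iff₀ (by positivity)]
      linarith
    linarith
  have hS₁r : (0 : ℝ) < S₁ := by exact_mod_cast hS₁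
  have h11 : (0 : ℝ) < 11 ^ d := by positivity
  have hb : 0 < 1 - ε := by linarith
  have ha : (1 : ℝ) ≤ 1 / (1 - ε) := by
    rw [one_le_div hb]; linarith
  obtain ⟨M, hM⟩ : ∃ M : ℝ, M = lam ^ P * δ ^ d * (S.card : ℝ) ^ (1 - ε) := ⟨_, rfl⟩
  have hM0 : 0 ≤ M := by rw [hM]; positivity
  -- for every positive loss in `δ`
  have hall : ∀ t : ℝ, 0 < t → ENNReal.ofReal (c₁ * ((S₁ : ℝ) ^ (P + 1))⁻¹ * δ ^ t * M) ≤
      ((11 ^ d : ℕ) : ℝ≥0∞) * volume X := by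
    intro t ht
    have hmain := restr_main (a := 1 / (1 - ε)) (P := P) (ε := t) (c₀ := c₀) ha hP ht hc (by
      intro m N u v A κ hκ hinj hv hA hcard
      refine le_trans ?_ (h m N u v A κ hκ hinj hv hA hcard)
      rw [one_div_one_div]
      have h1 : ((2 : ℝ) ^ m) ^ (-t) ≤ 1 :=
        Real.rpow_le_one_of_one_le_of_nonpos (one_le_pow₀ (by norm_num)) (by linarith)
      calc c₀ * ((2 : ℝ) ^ m) ^ (-t) * (2 ^ m * κ ^ P * (N : ℝ) ^ (1 - ε)) ≤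
            c₀ * 1 * (2 ^ m * κ ^ P * (N : ℝ) ^ (1 - ε)) := by gcongr
        _ = _ := by ring) hδ hδ1 S hSne c e hF hX hlam hvol hS₁ hS
    rw [one_div_one_div, ← hc₁, ← hM] at hmain
    exact hmain
  have hlim : ENNReal.ofReal (c₁ * ((S₁ : ℝ) ^ (P + 1))⁻¹ * M) ≤
      ((11 ^ d : ℕ) : ℝ≥0∞) * volume X := by
    have hcont : Continuous fun t : ℝ =>
        ENNReal.ofReal (c₁ * ((S₁ : ℝ) ^ (P + 1))⁻¹ * δ ^ t * M) :=
      ENNReal.continuous_ofReal.comp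
        (((Real.continuous_const_rpow hδ.ne').const_mul _).mul_const M)
    have ht := (hcont.tendsto 0).mono_left (nhdsWithin_le_nhds (s := Set.Ioi (0 : ℝ)))
    rw [Real.rpow_zero, mul_one] at ht
    refine le_of_tendsto ht ?_
    filter_upwards [self_mem_nhdsWithin] with t ht
    exact hall t ht
  have h2 : (S₁ : ℝ) ^ (P + 1) ≤ A₁ ^ (P + 1) * (lam / 2)⁻¹ := by
    calc (S₁ : ℝ) ^ (P + 1) ≤ (A₁ * (lam / 2) ^ (-(1 / (P + 1)))) ^ (P + 1) := by gcongr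
      _ = A₁ ^ (P + 1) * (lam / 2)⁻¹ := by
          rw [Real.mul_rpow hA₁0.le (by positivity), ← Real.rpow_mul hl2.le]
          have : -(1 / (P + 1)) * (P + 1) = -1 := by field_simp
          rw [this, Real.rpow_neg_one]
  have h3 : (A₁ ^ (P + 1))⁻¹ * (lam / 2) ≤ ((S₁ : ℝ) ^ (P + 1))⁻¹ := by
    have h5 : (A₁ ^ (P + 1) * (lam / 2)⁻¹)⁻¹ ≤ ((S₁ : ℝ) ^ (P + 1))⁻¹ :=
      inv_anti₀ (by positivity) h2
    rwa [mul_inv, inv_inv] at h5
  have h6 : ENNReal.ofReal (c₁ * (A₁ ^ (P + 1))⁻¹ / 2 / 11 ^ d *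
      (lam ^ (P + 1) * δ ^ d * (S.card : ℝ) ^ (1 - ε))) *
      ((11 ^ d : ℕ) : ℝ≥0∞) ≤ ((11 ^ d : ℕ) : ℝ≥0∞) * volume X := by
    refine le_trans ?_ hlim
    have h7 : ((11 ^ d : ℕ) : ℝ≥0∞) = ENNReal.ofReal (11 ^ d) := by
      rw [← ENNReal.ofReal_natCast]; push_cast; rfl
    rw [h7, ← ENNReal.ofReal_mul (by positivity)]
    apply ENNReal.ofReal_le_ofReal
    have h8 : lam ^ (P + 1) = lam ^ P * lam := by
      rw [Real.rpow_add hlam, Real.rpow_one]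
    calc c₁ * (A₁ ^ (P + 1))⁻¹ / 2 / 11 ^ d *
          (lam ^ (P + 1) * δ ^ d * (S.card : ℝ) ^ (1 - ε)) * 11 ^ d
        = c₁ * ((A₁ ^ (P + 1))⁻¹ * (lam / 2)) * M := by
          rw [h8, hM]; field_simp
      _ ≤ c₁ * ((S₁ : ℝ) ^ (P + 1))⁻¹ * M := by gcongr
  rw [mul_comm] at h6
  have h8 : ((11 ^ d : ℕ) : ℝ≥0∞) ≠ 0 := by
    have : (11 ^ d : ℕ) ≠ 0 := by positivity
    exact_mod_cast this
  exact (ENNReal.mul_le_mul_iff_right h8 (ENNReal.natCast_ne_top _)).mp h6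

/-- Density bounds for tubes, with a small power of the number of tubes as the only loss: for
every `ε` there are `c` and `P` with this bound. -/
def DensN (d : ℕ) : Prop :=
  ∀ ε : ℝ, 0 < ε → ε < 1 → ∃ c P : ℝ, 0 < c ∧ 0 ≤ P ∧ ∀ δ : ℝ, 0 < δ → δ < 1 →
    ∀ (ι : Type) (S : Finset ι) (x₀ e : ι → E d), Fam δ e S → ∀ (X : Set (E d)),
    MeasurableSet X → ∀ lam : ℝ, 0 < lam → lam ≤ 1 →
    (∀ i ∈ S, ENNReal.ofReal (lam * δ ^ d) ≤ volume (X ∩ tube δ (x₀ i) (e i))) →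
    ENNReal.ofReal (c * (lam ^ P * δ ^ d * (S.card : ℝ) ^ (1 - ε))) ≤ volume X

/-- **Density bounds without loss in `δ`.** -/
theorem densN_of_KP (h : Pool.KA.KP d) : DensN d := by
  intro ε hε hε1
  have hd0 : (0 : ℝ) ≤ d := Nat.cast_nonneg d
  obtain ⟨P, c₀, hP1, hc, hcount⟩ := countN_of_KP h hε hε1
  obtain ⟨c, hc0, hmain⟩ := densN_of_countN hε hε1 (by linarith) hc hcount
  exact ⟨c, P + 1, hc0, by linarith, hmain⟩

/-- **Typical multiplicities without loss in `δ`.** -/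
theorem tubesN_of_densN (hd : 1 ≤ d) (h : DensN d) {ε q₀ : ℝ} (hε : 0 < ε) (hε1 : ε < 1)
    (hq₀ : 1 + 1 / (d : ℝ) < q₀) :
    ∃ θ P C : ℝ, 0 < θ ∧ 0 ≤ P ∧ 0 < C ∧ ∀ δ : ℝ, 0 < δ → δ < 1 →
      ∀ (N : ℕ) (c e : Fin N → E d),
      (∀ i, ‖e i‖ = 1) → (∀ i j, i ≠ j → δ ≤ ‖e i - e j‖) →
      (∃ G : Set (E d), MeasurableSet G ∧
        ∑ i, volume (tube δ (c i) (e i) \ G) ≤
          ENNReal.ofReal ((N : ℝ) ^ (-θ)) * ∑ i, volume (tube δ (c i) (e i)) ∧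
        (∀ x ∈ G, mlt δ c e x ≤ C * (N : ℝ) ^ ε) ∧
        (∀ q : ℝ, q₀ ≤ q →
          eLpNorm (G.indicator (mlt δ c e)) (ENNReal.ofReal q) volume ≤
            ENNReal.ofReal (C * (δ ^ ((d : ℝ) / q) * (N : ℝ) ^ (1 - 1 / (q * d)))))) ∧
      ENNReal.ofReal (C⁻¹ * ((N : ℝ) ^ (1 - ε) * δ ^ d)) ≤
        volume (⋃ i, tube δ (c i) (e i)) ∧
      (∀ lam : ℝ, 0 < lam → lam ≤ 1 → ∀ X : Set (E d), MeasurableSet X →
        (∀ i, ENNReal.ofReal lam * volume (tube δ (c i) (e i)) ≤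
          volume (X ∩ tube δ (c i) (e i))) →
        ENNReal.ofReal (C⁻¹ * lam ^ P * ((N : ℝ) ^ (1 - ε) * δ ^ d)) ≤ volume X) := by
  classical
  have hd0 : (0 : ℝ) < d := by exact_mod_cast hd
  have hcd := cd_pos hd
  have hcd2 := cd_le_two hd
  have hd' : 0 < 1 / (d : ℝ) := by positivity
  have hq₀0 : 0 < q₀ := by linarith
  have hgap : 0 < 1 - (1 + 1 / (d : ℝ)) / q₀ := by
    rw [sub_pos, div_lt_one hq₀0]; exact hq₀
  obtain ⟨ε₁, hε₁⟩ : ∃ ε₁ : ℝ, ε₁ = min ε (1 - (1 + 1 / (d : ℝ)) / q₀) / 2 := ⟨_, rfl⟩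
  have h0 : 0 < ε₁ := by rw [hε₁]; positivity
  have h1 : 2 * ε₁ ≤ ε := by
    rw [hε₁]; linarith [min_le_left ε (1 - (1 + 1 / (d : ℝ)) / q₀)]
  have h2 : 2 * ε₁ ≤ 1 - (1 + 1 / (d : ℝ)) / q₀ := by
    rw [hε₁]; linarith [min_le_right ε (1 - (1 + 1 / (d : ℝ)) / q₀)]
  obtain ⟨c₀, P, hc₀, hP0, hdens⟩ := h ε₁ h0 (by linarith)
  obtain ⟨θ, hθ⟩ : ∃ θ : ℝ, θ = ε₁ / (P + 1) := ⟨_, rfl⟩
  have hθ0 : 0 < θ := by rw [hθ]; positivity
  obtain ⟨K, hK⟩ : ∃ K : ℝ, K = 2 ^ d * (2 ^ (d + 1) * 2 / cd d) / (c₀ * (cd d / 4) ^ P) :=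
    ⟨_, rfl⟩
  have hK0 : 0 < K := by rw [hK]; positivity
  have h2d : (1 : ℝ) ≤ 2 ^ d := one_le_pow₀ (by norm_num)
  obtain ⟨C, hC⟩ : ∃ C : ℝ, C = max ((K + 1) * 2 ^ d) (max (2 * (K + 1) / cd d)
    (c₀ * (cd d / 2) ^ P)⁻¹) := ⟨_, rfl⟩
  have hC1 : (K + 1) * 2 ^ d ≤ C := by rw [hC]; exact le_max_left _ _
  have hC2 : 2 * (K + 1) / cd d ≤ C := by
    rw [hC]; exact (le_max_left _ _).trans (le_max_right _ _)
  have hC2' : (c₀ * (cd d / 2) ^ P)⁻¹ ≤ C := by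
    rw [hC]; exact (le_max_right _ _).trans (le_max_right _ _)
  have hC3 : K + 1 ≤ C := le_trans (le_mul_of_one_le_right (by linarith) h2d) hC1
  have hC0 : 0 < C := by linarith
  refine ⟨θ, P, C, hθ0, hP0, hC0, ?_⟩
  intro δ hδ hδ1 N c e hu hsep
  have hmm := Pool.STK.TG2.measurable_mlt δ c e
  have hFam : Fam δ e (univ : Finset (Fin N)) :=
    ⟨fun i _ => hu i, fun i _ j _ hij => hsep i j hij⟩
  rcases Nat.eq_zero_or_pos N with hN | hN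
  · subst hN
    have hz : mlt δ c e = 0 := by
      funext x
      unfold mlt
      simp
    refine ⟨⟨Set.univ, MeasurableSet.univ, ?_, ?_, ?_⟩, ?_, ?_⟩
    · simp
    · intro x _
      rw [hz, Nat.cast_zero, Pi.zero_apply]
      exact mul_nonneg hC0.le (Real.rpow_nonneg le_rfl _)
    · intro q _
      rw [hz, Set.indicator_univ, eLpNorm_zero]
      exact bot_le
    · rw [Nat.cast_zero, Real.zero_rpow (by linarith), zero_mul, mul_zero, ENNReal.ofReal_zero]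
      exact bot_le
    · intro lam _ _ X _ _
      rw [Nat.cast_zero, Real.zero_rpow (by linarith), zero_mul, mul_zero, ENNReal.ofReal_zero]
      exact bot_le
  have hN1 : (1 : ℝ) ≤ N := by exact_mod_cast hN
  have hN0 : (0 : ℝ) < N := by linarith
  have hNθ : 0 < (N : ℝ) ^ (-θ) := by positivity
  have hNθ1 : (N : ℝ) ^ (-θ) ≤ 1 := Real.rpow_le_one_of_one_le_of_nonpos hN1 (by linarith)
  obtain ⟨η, hη⟩ : ∃ η : ℝ, η = (N : ℝ) ^ (-θ) / 2 := ⟨_, rfl⟩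
  have hη0 : 0 < η := by rw [hη]; positivity
  have hη2 : η ≤ 1 / 2 := by rw [hη]; linarith
  have hNε1 : 1 ≤ (N : ℝ) ^ (2 * ε₁) := Real.one_le_rpow hN1 (by linarith)
  obtain ⟨Λ, hΛ⟩ : ∃ Λ : ℝ, Λ = (K + 1) * (N : ℝ) ^ (2 * ε₁) := ⟨_, rfl⟩
  have hΛ0 : 0 < Λ := by rw [hΛ]; positivity
  have hΛ1 : 1 ≤ Λ := by
    rw [hΛ]
    nlinarith
  have hlam0 : 0 < cd d * η / 2 := by positivity
  have hlam1 : cd d * η / 2 ≤ 1 := by nlinarith
  have htyp := typical hd hδ c e hu (η := η) (b := 1 - ε₁) (Λ := Λ)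
    (B := c₀ * (cd d * η / 2) ^ P) hη0 (by linarith) hΛ0 (by
      intro S X hXm hS
      have h3 := hdens δ hδ hδ1 (Fin N) S c e (hFam.mono (Finset.subset_univ _)) X hXm
        (cd d * η / 2) hlam0 hlam1 hS
      refine le_trans (ENNReal.ofReal_le_ofReal (le_of_eq ?_)) h3
      ring) (by
      have k0 : (1 : ℝ) ≤ 2 ^ (d + 1) / (cd d * η) := by
        rw [one_le_div (by positivity), pow_succ]
        nlinarith
      have k1 : (2 ^ (d + 1) / (cd d * η)) ^ (1 - ε₁) ≤ 2 ^ (d + 1) / (cd d * η) := by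
        calc _ ≤ (2 ^ (d + 1) / (cd d * η)) ^ (1 : ℝ) :=
              Real.rpow_le_rpow_of_exponent_le k0 (by linarith)
          _ = _ := Real.rpow_one _
      have k2 : (cd d * η / 2) ^ P = (cd d / 4) ^ P * (N : ℝ) ^ (-(θ * P)) := by
        have : -(θ * P) = (-θ) * P := by ring
        rw [this, Real.rpow_mul hN0.le, ← Real.mul_rpow (by positivity) (by positivity), hη]
        congr 1
        ring
      have k3 : 2 ^ (d + 1) / (cd d * η) = (2 ^ (d + 1) * 2 / cd d) * (N : ℝ) ^ θ := by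
        rw [hη, Real.rpow_neg hN0.le]
        field_simp
      have k4 : (N : ℝ) ^ (1 - (1 - ε₁)) * (N : ℝ) ^ θ =
          (N : ℝ) ^ (2 * ε₁) * (N : ℝ) ^ (-(θ * P)) := by
        rw [← Real.rpow_add hN0, ← Real.rpow_add hN0]
        congr 1
        rw [hθ]
        field_simp
        ring
      have k5 : K * (c₀ * (cd d / 4) ^ P) = 2 ^ d * (2 ^ (d + 1) * 2 / cd d) := by
        rw [hK]
        field_simp
      have k6 : 0 < (N : ℝ) ^ (2 * ε₁) * (N : ℝ) ^ (-(θ * P)) := by positivity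
      have k7 : 0 < c₀ * (cd d / 4) ^ P := by positivity
      calc 2 ^ d * (N : ℝ) ^ (1 - (1 - ε₁)) * (2 ^ (d + 1) / (cd d * η)) ^ (1 - ε₁)
          ≤ 2 ^ d * (N : ℝ) ^ (1 - (1 - ε₁)) * (2 ^ (d + 1) / (cd d * η)) := by gcongr
        _ = 2 ^ d * (2 ^ (d + 1) * 2 / cd d) * ((N : ℝ) ^ (1 - (1 - ε₁)) * (N : ℝ) ^ θ) := by
            rw [k3]; ring
        _ = (K * (c₀ * (cd d / 4) ^ P)) * ((N : ℝ) ^ (2 * ε₁) * (N : ℝ) ^ (-(θ * P))) := by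
            rw [k4, k5]
        _ < ((K + 1) * (c₀ * (cd d / 4) ^ P)) *
              ((N : ℝ) ^ (2 * ε₁) * (N : ℝ) ^ (-(θ * P))) := by
            refine mul_lt_mul_of_pos_right ?_ k6
            nlinarith
        _ = _ := by rw [hΛ, k2]; ring)
  refine ⟨⟨{x | mlt δ c e x ≤ Λ}, measurableSet_le hmm measurable_const, ?_, ?_, ?_⟩, ?_, ?_⟩
  · refine htyp.trans ?_
    have : η ≤ (N : ℝ) ^ (-θ) := by rw [hη]; linarith
    gcongr
  · intro x hx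
    have h3 : mlt δ c e x ≤ Λ := hx
    refine h3.trans ?_
    rw [hΛ]
    have h4 : (N : ℝ) ^ (2 * ε₁) ≤ (N : ℝ) ^ ε := Real.rpow_le_rpow_of_exponent_le hN1 h1
    gcongr
  · intro q hq
    have hq0 : 0 < q := by linarith
    have hq1 : 1 ≤ q := by linarith
    refine (lq_bound hδ c e hu hΛ1 hq1).trans (ENNReal.ofReal_le_ofReal ?_)
    have k1 : Λ ^ (1 - 1 / q) ≤ Λ := by
      calc Λ ^ (1 - 1 / q) ≤ Λ ^ (1 : ℝ) := by
            refine Real.rpow_le_rpow_of_exponent_le hΛ1 ?_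
            have : 0 < 1 / q := by positivity
            linarith
        _ = Λ := Real.rpow_one Λ
    have k3 : (N : ℝ) ^ (2 * ε₁) * (N : ℝ) ^ (1 / q) ≤ (N : ℝ) ^ (1 - 1 / (q * d)) := by
      rw [← Real.rpow_add hN0]
      refine Real.rpow_le_rpow_of_exponent_le hN1 ?_
      have h5 : 1 / q + 1 / (q * d) = (1 + 1 / d) / q := by
        field_simp
      have h6 : (1 + 1 / (d : ℝ)) / q ≤ (1 + 1 / (d : ℝ)) / q₀ := by gcongr
      linarith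
    calc Λ ^ (1 - 1 / q) * (2 ^ d * (δ ^ ((d : ℝ) / q) * (N : ℝ) ^ (1 / q)))
        ≤ Λ * (2 ^ d * (δ ^ ((d : ℝ) / q) * (N : ℝ) ^ (1 / q))) := by gcongr
      _ = (K + 1) * 2 ^ d * (δ ^ ((d : ℝ) / q) *
            ((N : ℝ) ^ (2 * ε₁) * (N : ℝ) ^ (1 / q))) := by
          rw [hΛ]; ring
      _ ≤ C * (δ ^ ((d : ℝ) / q) * (N : ℝ) ^ (1 - 1 / (q * d))) := by gcongr
  · refine le_trans (ENNReal.ofReal_le_ofReal ?_) (union_bound hd hδ c e hu hΛ0 hη2 htyp)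
    have k1 : cd d / (2 * Λ) * (N * δ ^ d) = (2 * (K + 1) / cd d)⁻¹ *
        ((N : ℝ) ^ (1 - 2 * ε₁) * δ ^ d) := by
      rw [hΛ, Real.rpow_sub hN0, Real.rpow_one]
      field_simp
    rw [k1]
    have k2 : C⁻¹ ≤ (2 * (K + 1) / cd d)⁻¹ := inv_anti₀ (by positivity) hC2
    have k3 : (N : ℝ) ^ (1 - ε) ≤ (N : ℝ) ^ (1 - 2 * ε₁) :=
      Real.rpow_le_rpow_of_exponent_le hN1 (by linarith)
    gcongr
  · intro lam hlam hlam1' X hX hXvol
    have k1 : 0 < lam * (cd d / 2) := by positivity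
    have k2 : lam * (cd d / 2) ≤ 1 := by nlinarith
    have h3 := hdens δ hδ hδ1 (Fin N) univ c e hFam X hX (lam * (cd d / 2)) k1 k2 (by
      intro i _
      refine le_trans ?_ (hXvol i)
      have h4 := le_vol hd hδ (c i) (e i) (hu i)
      calc ENNReal.ofReal (lam * (cd d / 2) * δ ^ d) ≤
            ENNReal.ofReal (lam * (cd d * δ ^ d)) := by
            refine ENNReal.ofReal_le_ofReal ?_
            have : 0 < lam * (cd d * δ ^ d) := by positivity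
            nlinarith
        _ = ENNReal.ofReal lam * ENNReal.ofReal (cd d * δ ^ d) := ENNReal.ofReal_mul hlam.le
        _ ≤ _ := by gcongr)
    rw [Finset.card_univ, Fintype.card_fin] at h3
    refine le_trans (ENNReal.ofReal_le_ofReal ?_) h3
    rw [Real.mul_rpow hlam.le (by positivity)]
    have k3 : C⁻¹ ≤ c₀ * (cd d / 2) ^ P := by
      have := inv_anti₀ (by positivity) hC2'
      rwa [inv_inv] at this
    have k4 : (N : ℝ) ^ (1 - ε) ≤ (N : ℝ) ^ (1 - ε₁) :=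
      Real.rpow_le_rpow_of_exponent_le hN1 (by linarith)
    calc C⁻¹ * lam ^ P * ((N : ℝ) ^ (1 - ε) * δ ^ d) ≤
          (c₀ * (cd d / 2) ^ P) * lam ^ P * ((N : ℝ) ^ (1 - ε₁) * δ ^ d) := by gcongr
      _ = _ := by ring

/-- **The tube statement.** -/
theorem tubesN_of_KP (hd : 1 ≤ d) (h : Pool.KA.KP d) {ε q₀ : ℝ} (hε : 0 < ε) (hε1 : ε < 1)
    (hq₀ : 1 + 1 / (d : ℝ) < q₀) :
    ∃ θ P C : ℝ, 0 < θ ∧ 0 ≤ P ∧ 0 < C ∧ ∀ δ : ℝ, 0 < δ → δ < 1 →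
      ∀ (N : ℕ) (c e : Fin N → E d),
      (∀ i, ‖e i‖ = 1) → (∀ i j, i ≠ j → δ ≤ ‖e i - e j‖) →
      (∃ G : Set (E d), MeasurableSet G ∧
        ∑ i, volume (tube δ (c i) (e i) \ G) ≤
          ENNReal.ofReal ((N : ℝ) ^ (-θ)) * ∑ i, volume (tube δ (c i) (e i)) ∧
        (∀ x ∈ G, mlt δ c e x ≤ C * (N : ℝ) ^ ε) ∧
        (∀ q : ℝ, q₀ ≤ q →
          eLpNorm (G.indicator (mlt δ c e)) (ENNReal.ofReal q) volume ≤
            ENNReal.ofReal (C * (δ ^ ((d : ℝ) / q) * (N : ℝ) ^ (1 - 1 / (q * d)))))) ∧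
      ENNReal.ofReal (C⁻¹ * ((N : ℝ) ^ (1 - ε) * δ ^ d)) ≤
        volume (⋃ i, tube δ (c i) (e i)) ∧
      (∀ lam : ℝ, 0 < lam → lam ≤ 1 → ∀ X : Set (E d), MeasurableSet X →
        (∀ i, ENNReal.ofReal lam * volume (tube δ (c i) (e i)) ≤
          volume (X ∩ tube δ (c i) (e i))) →
        ENNReal.ofReal (C⁻¹ * lam ^ P * ((N : ℝ) ^ (1 - ε) * δ ^ d)) ≤ volume X) :=
  tubesN_of_densN hd (densN_of_KP h) hε hε1 hq₀

end Pool.KFIN
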