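import Pool.Agent.H73.KFIN.Restr

/-!
# The counting inequality with a loss in the number of lines only
-/

set_option autoImplicit false

namespace Pool.KFIN

open Finset
open Pool.Agent.H32.Dense
open Pool.Agent.H53.Dns (cells count_finset ediv_pow_eq)

variable {d : ℕ}

/-- The number of integers at which an affine function is small. -/
lemma card_small {a b R : ℝ} {m : ℕ} (hR : 0 < R) (hb : R ≤ |b|) (F : Finset ℤ)
    (hF : ∀ j ∈ F, |a + (j : ℝ) / 2 ^ m * b| < 1) : (F.card : ℝ) ≤ 2 * 2 ^ m / R + 1 := by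
  rcases F.eq_empty_or_nonempty with rfl | hne
  · rw [Finset.card_empty, Nat.cast_zero]
    positivity
  obtain ⟨j0, hj0, hmin⟩ := F.exists_min_image id hne
  obtain ⟨j1, hj1, hmax⟩ := F.exists_max_image id hne
  simp only [id] at hmin hmax
  have h01 : j0 ≤ j1 := hmin j1 hj1
  have h01r : (0 : ℝ) ≤ (j1 : ℝ) - j0 := by
    have : (j0 : ℝ) ≤ j1 := by exact_mod_cast h01
    linarith
  have hsub : F ⊆ Finset.Icc j0 j1 := fun j hj => Finset.mem_Icc.mpr ⟨hmin j hj, hmax j hj⟩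
  have hW : (0 : ℝ) < 2 ^ m := by positivity
  have h1 : ((j1 : ℝ) - j0) / 2 ^ m * |b| < 2 := by
    have h2 : ((j1 : ℝ) - j0) / 2 ^ m * |b| = |((j1 : ℝ) - j0) / 2 ^ m * b| := by
      rw [abs_mul, abs_of_nonneg (by positivity : (0 : ℝ) ≤ ((j1 : ℝ) - j0) / 2 ^ m)]
    rw [h2]
    have h3 : ((j1 : ℝ) - j0) / 2 ^ m * b = (a + (j1 : ℝ) / 2 ^ m * b) -
      (a + (j0 : ℝ) / 2 ^ m * b) := by ring
    rw [h3]
    calc _ ≤ |a + (j1 : ℝ) / 2 ^ m * b| + |a + (j0 : ℝ) / 2 ^ m * b| := abs_sub _ _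
      _ < 1 + 1 := add_lt_add (hF j1 hj1) (hF j0 hj0)
      _ = 2 := by norm_num
  have h2 : ((j1 : ℝ) - j0) ≤ 2 * 2 ^ m / R := by
    rw [le_div_iff₀ hR]
    have h3 : ((j1 : ℝ) - j0) / 2 ^ m * R ≤ 2 := by
      refine le_trans ?_ h1.le
      gcongr
    calc ((j1 : ℝ) - j0) * R = (((j1 : ℝ) - j0) / 2 ^ m * R) * 2 ^ m := by field_simp
      _ ≤ 2 * 2 ^ m := by gcongr
  have h3 : (F.card : ℝ) ≤ (j1 : ℝ) - j0 + 1 := by
    have h4 := Finset.card_le_card hsub
    rw [Int.card_Icc] at h4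
    have h5 : ((j1 + 1 - j0).toNat : ℤ) = j1 + 1 - j0 := Int.toNat_of_nonneg (by omega)
    have h6 : (F.card : ℤ) ≤ j1 + 1 - j0 := by rw [← h5]; exact_mod_cast h4
    have h7 : ((F.card : ℤ) : ℝ) ≤ ((j1 + 1 - j0 : ℤ) : ℝ) := Int.cast_le.mpr h6
    push_cast at h7
    linarith
  linarith

/-- The times at which two lines with different velocities are in the same cell. -/
lemma card_coin {m r : ℕ} (hrm : r ≤ m) (u u' : Fin d → ℝ) (v v' : Fin d → ℤ) {k : Fin d}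
    (hk : (2 : ℤ) ^ r ≤ |v k - v' k|) (F : Finset ℤ)
    (hF : ∀ j ∈ F, rd (pos (2 ^ m) u v j) = rd (pos (2 ^ m) u' v' j)) :
    (F.card : ℝ) ≤ 3 * 2 ^ m / 2 ^ r := by
  have h1 : ∀ j ∈ F, |(u k - u' k) + (j : ℝ) / 2 ^ m * ((v k : ℝ) - v' k)| < 1 := by
    intro j hj
    have h2 := congrFun (hF j hj) k
    have h3 : ⌊pos (2 ^ m) u v j k⌋ = ⌊pos (2 ^ m) u' v' j k⌋ := h2
    have h4 := Int.abs_sub_lt_one_of_floor_eq_floor h3
    have h5 : pos (2 ^ m) u v j k - pos (2 ^ m) u' v' j k =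
        (u k - u' k) + (j : ℝ) / 2 ^ m * ((v k : ℝ) - v' k) := by
      unfold pos
      push_cast
      ring
    rwa [h5] at h4
  have hk' : (2 : ℝ) ^ r ≤ |(v k : ℝ) - v' k| := by
    have h6 : ((2 ^ r : ℤ) : ℝ) ≤ ((|v k - v' k| : ℤ) : ℝ) := Int.cast_le.mpr hk
    rw [Int.cast_abs] at h6
    push_cast at h6
    exact h6
  have h2 := card_small (by positivity) hk' F h1
  refine h2.trans ?_
  have h3 : (1 : ℝ) ≤ 2 ^ m / 2 ^ r := by
    rw [one_le_div (by positivity)]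
    exact pow_le_pow_right₀ (by norm_num) hrm
  have h4 : 3 * (2 : ℝ) ^ m / 2 ^ r = 2 * 2 ^ m / 2 ^ r + 2 ^ m / 2 ^ r := by ring
  rw [h4]
  linarith

/-- Decomposition of the times into blocks. -/
lemma blocks {m r : ℕ} (hrm : r ≤ m) (f : ℤ → ℝ) :
    ∑ j ∈ Finset.Ico 0 (2 ^ m : ℤ), f j = ∑ j' ∈ Finset.Ico 0 (2 ^ r : ℤ),
      ∑ j ∈ Finset.Ico (j' * 2 ^ (m - r)) ((j' + 1) * 2 ^ (m - r)), f j := by
  have hB : (0 : ℤ) < 2 ^ (m - r) := by positivity
  have e : (2 : ℤ) ^ m = 2 ^ r * 2 ^ (m - r) := by rw [← pow_add, Nat.add_sub_cancel' hrm]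
  rw [← Finset.sum_fiberwise_of_maps_to (s := Finset.Ico 0 (2 ^ m : ℤ))
    (t := Finset.Ico 0 (2 ^ r : ℤ)) (g := fun j => j / 2 ^ (m - r))]
  · refine Finset.sum_congr rfl fun j' hj' => Finset.sum_congr ?_ fun _ _ => rfl
    ext j
    rw [Finset.mem_filter, Finset.mem_Ico, Finset.mem_Ico, ediv_pow_eq]
    rw [Finset.mem_Ico] at hj'
    constructor
    · rintro ⟨-, h⟩
      exact h
    · rintro ⟨h1, h2⟩
      refine ⟨⟨le_trans (mul_nonneg hj'.1 hB.le) h1, lt_of_lt_of_le h2 ?_⟩, h1, h2⟩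
      rw [e]
      exact mul_le_mul_of_nonneg_right (by omega) hB.le
  · intro j hj
    rw [Finset.mem_Ico] at hj ⊢
    refine ⟨Int.ediv_nonneg hj.1 hB.le, ?_⟩
    rw [e] at hj
    exact Int.ediv_lt_of_lt_mul hB hj.2

section

variable {ι : Type}

/-- The lines which are far from the line `i`. -/
noncomputable def far (r : ℕ) (L : Finset ι) (v : ι → Fin d → ℤ) (i : ι) : Finset ι :=
  L.filter fun i' => ∃ k, (2 : ℤ) ^ r ≤ |v i k - v i' k|

/-- The times of the line `i` at which it is not in the cell of a far line. -/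
noncomputable def A1 (m r : ℕ) (L : Finset ι) (u : ι → Fin d → ℝ) (v : ι → Fin d → ℤ)
    (A : ι → Finset ℤ) (i : ι) : Finset ℤ :=
  (A i).filter fun j => ∀ i' ∈ far r L v i,
    rd (pos (2 ^ m) (u i) (v i) j) ≠ rd (pos (2 ^ m) (u i') (v i') j)

lemma A1_sub (m r : ℕ) (L : Finset ι) (u : ι → Fin d → ℝ) (v : ι → Fin d → ℤ)
    (A : ι → Finset ℤ) (i : ι) : A1 m r L u v A i ⊆ A i := Finset.filter_subset _ _

lemma card_A1 {m r : ℕ} (hrm : r ≤ m) (L : Finset ι) (u : ι → Fin d → ℝ) (v : ι → Fin d → ℤ)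
    (A : ι → Finset ℤ) {κ : ℝ} (i : ι) (hcard : κ * 2 ^ m ≤ (A i).card)
    (hr : 6 * L.card ≤ κ * 2 ^ r) : κ / 2 * 2 ^ m ≤ ((A1 m r L u v A i).card : ℝ) := by
  have h1 : A i ⊆ A1 m r L u v A i ∪ (far r L v i).biUnion fun i' =>
      (A i).filter fun j => rd (pos (2 ^ m) (u i) (v i) j) =
        rd (pos (2 ^ m) (u i') (v i') j) := by
    intro j hj
    rw [Finset.mem_union]
    by_cases h : ∀ i' ∈ far r L v i,
      rd (pos (2 ^ m) (u i) (v i) j) ≠ rd (pos (2 ^ m) (u i') (v i') j)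
    · exact Or.inl (Finset.mem_filter.mpr ⟨hj, h⟩)
    · push Not at h
      obtain ⟨i', hi', h'⟩ := h
      exact Or.inr (Finset.mem_biUnion.mpr ⟨i', hi', Finset.mem_filter.mpr ⟨hj, h'⟩⟩)
  have h2 : ((A i).card : ℝ) ≤ ((A1 m r L u v A i).card : ℝ) +
      L.card * (3 * 2 ^ m / 2 ^ r) := by
    have h3 := (Finset.card_le_card h1).trans (Finset.card_union_le _ _)
    have h4 : ((((far r L v i).biUnion fun i' =>
      (A i).filter fun j => rd (pos (2 ^ m) (u i) (v i) j) =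
        rd (pos (2 ^ m) (u i') (v i') j)).card : ℕ) : ℝ) ≤ L.card * (3 * 2 ^ m / 2 ^ r) := by
      calc _ ≤ ((∑ i' ∈ far r L v i, ((A i).filter fun j =>
            rd (pos (2 ^ m) (u i) (v i) j) =
              rd (pos (2 ^ m) (u i') (v i') j)).card : ℕ) : ℝ) := by
            exact_mod_cast Finset.card_biUnion_le
        _ = ∑ i' ∈ far r L v i, ((((A i).filter fun j =>
            rd (pos (2 ^ m) (u i) (v i) j) =
              rd (pos (2 ^ m) (u i') (v i') j)).card : ℕ) : ℝ) := by push_cast; rfl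
        _ ≤ ∑ _i' ∈ far r L v i, 3 * (2 : ℝ) ^ m / 2 ^ r := by
            refine Finset.sum_le_sum fun i' hi' => ?_
            obtain ⟨k, hk⟩ := (Finset.mem_filter.mp hi').2
            exact card_coin hrm (u i) (u i') (v i) (v i') hk _
              fun j hj => (Finset.mem_filter.mp hj).2
        _ = (far r L v i).card * (3 * 2 ^ m / 2 ^ r) := by
            rw [Finset.sum_const, nsmul_eq_mul]
        _ ≤ _ := by
            have : (far r L v i).card ≤ L.card := Finset.card_le_card (Finset.filter_subset _ _)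
            gcongr
    have h5 := (Nat.cast_le (α := ℝ)).mpr h3
    rw [Nat.cast_add] at h5
    linarith
  have h3 : (L.card : ℝ) * (3 * 2 ^ m / 2 ^ r) ≤ κ / 2 * 2 ^ m := by
    rw [mul_div_assoc', div_le_iff₀ (by positivity)]
    have hW : (0 : ℝ) < 2 ^ m := by positivity
    nlinarith
  linarith

/-- The coarse times at which the line `i` is often active. -/
noncomputable def A2 (m r : ℕ) (κ : ℝ) (A : ι → Finset ℤ) (i : ι) : Finset ℤ :=
  (Finset.Ico 0 (2 ^ r : ℤ)).filter fun j' => κ / 4 * 2 ^ (m - r) ≤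
    ((((A i).filter fun j => j ∈ Finset.Ico (j' * 2 ^ (m - r)) ((j' + 1) * 2 ^ (m - r))).card :
      ℕ) : ℝ)

lemma card_block (m r : ℕ) (j' : ℤ) :
    ((Finset.Ico (j' * 2 ^ (m - r)) ((j' + 1) * 2 ^ (m - r))).card : ℝ) = 2 ^ (m - r) := by
  rw [Int.card_Ico]
  have h : (j' + 1) * 2 ^ (m - r) - j' * 2 ^ (m - r) = ((2 ^ (m - r) : ℕ) : ℤ) := by
    push_cast; ring
  rw [h, Int.toNat_natCast]
  push_cast
  rfl

lemma card_A2 {m r : ℕ} (hrm : r ≤ m) (A : ι → Finset ℤ) {κ : ℝ} (hκ : 0 < κ) (i : ι)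
    (hA : A i ⊆ Finset.Ico 0 (2 ^ m : ℤ)) (hcard : κ / 2 * 2 ^ m ≤ (A i).card) :
    κ / 4 * 2 ^ r ≤ ((A2 m r κ A i).card : ℝ) := by
  have hB : (0 : ℝ) < 2 ^ (m - r) := by positivity
  have e : (2 : ℝ) ^ m = 2 ^ r * 2 ^ (m - r) := by rw [← pow_add, Nat.add_sub_cancel' hrm]
  have h1 : ((A i).card : ℝ) = ∑ j' ∈ Finset.Ico 0 (2 ^ r : ℤ),
      ((((A i).filter fun j => j ∈ Finset.Ico (j' * 2 ^ (m - r))
        ((j' + 1) * 2 ^ (m - r))).card : ℕ) : ℝ) := by
    have h2 : ((A i).card : ℝ) = ∑ j ∈ Finset.Ico 0 (2 ^ m : ℤ), if j ∈ A i then (1 : ℝ) else 0 := by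
      rw [Finset.sum_boole, Finset.filter_mem_eq_inter, Finset.inter_eq_right.mpr hA]
    rw [h2, blocks hrm]
    refine Finset.sum_congr rfl fun j' _ => ?_
    rw [Finset.sum_boole]
    congr 2
    ext j
    simp only [Finset.mem_filter]
    tauto
  have h2 : ((A i).card : ℝ) ≤ (A2 m r κ A i).card * 2 ^ (m - r) +
      2 ^ r * (κ / 4 * 2 ^ (m - r)) := by
    rw [h1]
    calc ∑ j' ∈ Finset.Ico 0 (2 ^ r : ℤ), ((((A i).filter fun j => j ∈
          Finset.Ico (j' * 2 ^ (m - r)) ((j' + 1) * 2 ^ (m - r))).card : ℕ) : ℝ)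
        ≤ ∑ j' ∈ Finset.Ico 0 (2 ^ r : ℤ), ((if j' ∈ A2 m r κ A i then (2 : ℝ) ^ (m - r) else 0) +
            κ / 4 * 2 ^ (m - r)) := by
          refine Finset.sum_le_sum fun j' hj' => ?_
          by_cases h : j' ∈ A2 m r κ A i
          · rw [if_pos h]
            have h3 : ((((A i).filter fun j => j ∈ Finset.Ico (j' * 2 ^ (m - r))
              ((j' + 1) * 2 ^ (m - r))).card : ℕ) : ℝ) ≤ 2 ^ (m - r) := by
              rw [← card_block m r j']
              exact_mod_cast Finset.card_le_card fun j hj => (Finset.mem_filter.mp hj).2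
            have : 0 ≤ κ / 4 * 2 ^ (m - r) := by positivity
            linarith
          · rw [if_neg h, zero_add]
            by_contra hcon
            exact h (Finset.mem_filter.mpr ⟨hj', (not_le.mp hcon).le⟩)
      _ = (A2 m r κ A i).card * 2 ^ (m - r) + 2 ^ r * (κ / 4 * 2 ^ (m - r)) := by
          rw [Finset.sum_add_distrib, Finset.sum_const, nsmul_eq_mul, Int.card_Ico, sub_zero]
          have h4 : ((2 ^ r : ℤ)).toNat = 2 ^ r := by
            have : (2 ^ r : ℤ) = ((2 ^ r : ℕ) : ℤ) := by push_cast; rfl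
            rw [this, Int.toNat_natCast]
          rw [h4, ← Finset.sum_filter, Finset.sum_const, nsmul_eq_mul,
            Finset.filter_mem_eq_inter, Finset.inter_eq_right.mpr
              (show A2 m r κ A i ⊆ Finset.Ico 0 (2 ^ r : ℤ) from Finset.filter_subset _ _)]
          push_cast
          ring
  have h3 : κ / 4 * 2 ^ r * 2 ^ (m - r) ≤ ((A2 m r κ A i).card : ℝ) * 2 ^ (m - r) := by
    rw [e] at hcard
    nlinarith
  exact le_of_mul_le_mul_right h3 hB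


lemma near_floor {p q p' q' : ℝ} (h1 : ⌊p⌋ = ⌊q⌋) (h2 : |(p' - q') - (p - q)| ≤ 1) :
    |⌊p'⌋ - ⌊q'⌋| ≤ 2 := by
  have h3 := Int.abs_sub_lt_one_of_floor_eq_floor h1
  rw [abs_lt] at h3
  rw [abs_le] at h2
  have h4 := Int.floor_le p'
  have h5 := Int.lt_floor_add_one p'
  have h6 := Int.floor_le q'
  have h7 := Int.lt_floor_add_one q'
  have h8 : ((⌊p'⌋ - ⌊q'⌋ : ℤ) : ℝ) < 3 := by push_cast; linarith
  have h9 : (-3 : ℝ) < ((⌊p'⌋ - ⌊q'⌋ : ℤ) : ℝ) := by push_cast; linarith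
  have h10 : ⌊p'⌋ - ⌊q'⌋ < 3 := by exact_mod_cast h8
  have h11 : -3 < ⌊p'⌋ - ⌊q'⌋ := by exact_mod_cast h9
  rw [abs_le]
  omega

/-- The number of integer vectors near a given one. -/
lemma card_box (F : Finset (Fin d → ℤ)) (x₀ : Fin d → ℤ) (n : ℕ)
    (h : ∀ x ∈ F, ∀ k, |x k - x₀ k| ≤ n) : F.card ≤ (2 * n + 1) ^ d := by
  have h1 : F ⊆ Fintype.piFinset fun k => Finset.Icc (x₀ k - n) (x₀ k + n) := by
    intro x hx
    rw [Fintype.mem_piFinset]
    intro k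
    have := abs_le.mp (h x hx k)
    rw [Finset.mem_Icc]
    omega
  refine (Finset.card_le_card h1).trans ?_
  rw [Fintype.card_piFinset]
  have h2 : ∀ k, (Finset.Icc (x₀ k - n) (x₀ k + n)).card = 2 * n + 1 := by
    intro k
    rw [Int.card_Icc]
    omega
  simp only [h2, Finset.prod_const, Finset.card_univ, Fintype.card_fin, le_refl]

/-- Comparison of the cells in a block of times with the cells at the coarse time. -/
lemma block_cells {m r : ℕ} (hrm : r ≤ m) (L : Finset ι) (u : ι → Fin d → ℝ)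
    (v w : ι → Fin d → ℤ) (Q : Fin d → ℤ) (hv : ∀ i ∈ L, ∀ k, v i k = 2 ^ r * Q k + w i k)
    (hw : ∀ i ∈ L, ∀ k, 0 ≤ w i k ∧ w i k ≤ 2 ^ r) (A : ι → Finset ℤ) (κ : ℝ) (j' : ℤ) :
    κ / 4 * 2 ^ (m - r) * ((cells r L u w (A2 m r κ A) j').card : ℝ) ≤
      5 ^ d * ∑ j ∈ Finset.Ico (j' * 2 ^ (m - r)) ((j' + 1) * 2 ^ (m - r)),
        ((cells m L u v A j).card : ℝ) := by
  classical
  have hB : (0 : ℝ) < 2 ^ (m - r) := by positivity
  have hrr : (0 : ℝ) < 2 ^ r := by positivity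
  have e : (2 : ℝ) ^ m = 2 ^ r * 2 ^ (m - r) := by rw [← pow_add, Nat.add_sub_cancel' hrm]
  obtain ⟨C, hC⟩ : ∃ C, C = cells r L u w (A2 m r κ A) j' := ⟨_, rfl⟩
  obtain ⟨Bl, hBl⟩ : ∃ Bl : Finset ℤ, Bl = Finset.Ico (j' * 2 ^ (m - r))
    ((j' + 1) * 2 ^ (m - r)) := ⟨_, rfl⟩
  have hrep : ∀ x ∈ C, ∃ i ∈ L, j' ∈ A2 m r κ A i ∧ rd (pos (2 ^ r) (u i) (w i) j') = x := by
    intro x hx
    rw [hC] at hx
    obtain ⟨i, hi, h⟩ := Finset.mem_image.mp hx
    exact ⟨i, (Finset.mem_filter.mp hi).1, (Finset.mem_filter.mp hi).2, h⟩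
  by_cases hCe : C = ∅
  · rw [← hC, hCe, Finset.card_empty, Nat.cast_zero, mul_zero]
    positivity
  obtain ⟨x₁, hx₁⟩ := Finset.nonempty_iff_ne_empty.mpr hCe
  obtain ⟨i₁, -⟩ := hrep x₁ hx₁
  have : Nonempty ι := ⟨i₁⟩
  choose! f hfL hfA hfx using hrep
  rw [← hC, ← hBl]
  -- double counting
  have h1 : κ / 4 * 2 ^ (m - r) * (C.card : ℝ) ≤
      ∑ x ∈ C, (((A (f x)).filter fun j => j ∈ Bl).card : ℝ) := by
    rw [mul_comm, ← nsmul_eq_mul, ← Finset.sum_const]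
    refine Finset.sum_le_sum fun x hx => ?_
    rw [hBl]
    exact (Finset.mem_filter.mp (hfA x hx)).2
  have h2 : ∑ x ∈ C, (((A (f x)).filter fun j => j ∈ Bl).card : ℝ) =
      ∑ j ∈ Bl, ((C.filter fun x => j ∈ A (f x)).card : ℝ) := by
    have h3 : ∀ x ∈ C, (((A (f x)).filter fun j => j ∈ Bl).card : ℝ) =
        ∑ j ∈ Bl, if j ∈ A (f x) then (1 : ℝ) else 0 := by
      intro x _
      rw [Finset.sum_boole]
      congr 2
      ext j
      simp only [Finset.mem_filter]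
      tauto
    rw [Finset.sum_congr rfl h3, Finset.sum_comm]
    refine Finset.sum_congr rfl fun j _ => ?_
    rw [Finset.sum_boole]
  have h3 : ∀ j ∈ Bl, ((C.filter fun x => j ∈ A (f x)).card : ℝ) ≤
      5 ^ d * ((cells m L u v A j).card : ℝ) := by
    intro j hj
    rw [hBl, Finset.mem_Ico] at hj
    have h4 : (C.filter fun x => j ∈ A (f x)).card ≤ 5 ^ d * (cells m L u v A j).card := by
      refine Finset.card_le_mul_card_image_of_maps_to
        (f := fun x => rd (pos (2 ^ m) (u (f x)) (v (f x)) j)) ?_ (5 ^ d) ?_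
      · intro x hx
        obtain ⟨hx1, hx2⟩ := Finset.mem_filter.mp hx
        exact Finset.mem_image.mpr ⟨f x, Finset.mem_filter.mpr ⟨hfL x hx1, hx2⟩, rfl⟩
      · intro b _
        rcases (Finset.filter (fun x => rd (pos (2 ^ m) (u (f x)) (v (f x)) j) = b)
          (C.filter fun x => j ∈ A (f x))).eq_empty_or_nonempty with h0 | ⟨x₀, hx₀⟩
        · rw [h0, Finset.card_empty]
          positivity
        · refine (card_box _ x₀ 2 ?_).trans (le_of_eq (by norm_num))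
          intro x hx k
          obtain ⟨hxa, hxb⟩ := Finset.mem_filter.mp hx
          obtain ⟨hya, hyb⟩ := Finset.mem_filter.mp hx₀
          have hxC := (Finset.mem_filter.mp hxa).1
          have hyC := (Finset.mem_filter.mp hya).1
          have k1 := congrFun (hxb.trans hyb.symm) k
          have k2 : ⌊pos (2 ^ m) (u (f x)) (v (f x)) j k⌋ =
            ⌊pos (2 ^ m) (u (f x₀)) (v (f x₀)) j k⌋ := k1
          have k3 := congrFun (hfx x hxC) k
          have k4 := congrFun (hfx x₀ hyC) k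
          have k5 : ⌊pos (2 ^ r) (u (f x)) (w (f x)) j' k⌋ = x k := k3
          have k6 : ⌊pos (2 ^ r) (u (f x₀)) (w (f x₀)) j' k⌋ = x₀ k := k4
          rw [← k5, ← k6]
          refine near_floor k2 ?_
          have e1 : (pos (2 ^ r) (u (f x)) (w (f x)) j' k -
              pos (2 ^ r) (u (f x₀)) (w (f x₀)) j' k) -
              (pos (2 ^ m) (u (f x)) (v (f x)) j k -
              pos (2 ^ m) (u (f x₀)) (v (f x₀)) j k) =
              ((j' : ℝ) / 2 ^ r - (j : ℝ) / 2 ^ m) *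
                ((w (f x) k : ℝ) - (w (f x₀) k : ℝ)) := by
            unfold pos
            rw [hv _ (hfL x hxC) k, hv _ (hfL x₀ hyC) k]
            push_cast
            ring
          rw [e1, abs_mul]
          have hj1 : (j' : ℝ) * 2 ^ (m - r) ≤ j := by
            have := hj.1
            exact_mod_cast this
          have hj2 : (j : ℝ) < ((j' : ℝ) + 1) * 2 ^ (m - r) := by
            have := hj.2
            exact_mod_cast this
          have a1 : |(j' : ℝ) / 2 ^ r - (j : ℝ) / 2 ^ m| ≤ 1 / 2 ^ r := by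
            have a2 : (j' : ℝ) / 2 ^ r - (j : ℝ) / 2 ^ m =
                ((j' : ℝ) * 2 ^ (m - r) - j) / 2 ^ m := by
              rw [e]; field_simp
            rw [a2, abs_div, abs_of_pos (by positivity : (0 : ℝ) < 2 ^ m),
              div_le_div_iff₀ (by positivity) hrr, abs_of_nonpos (by linarith), e]
            nlinarith
          have a3 : |(w (f x) k : ℝ) - (w (f x₀) k : ℝ)| ≤ 2 ^ r := by
            have b1 := hw _ (hfL x hxC) k
            have b2 := hw _ (hfL x₀ hyC) k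
            have b3 : |w (f x) k - w (f x₀) k| ≤ 2 ^ r := by
              rw [abs_le]
              constructor <;> linarith [b1.1, b1.2, b2.1, b2.2]
            have b4 : ((|w (f x) k - w (f x₀) k| : ℤ) : ℝ) ≤ ((2 ^ r : ℤ) : ℝ) :=
              Int.cast_le.mpr b3
            rw [Int.cast_abs] at b4
            push_cast at b4
            exact b4
          calc _ ≤ 1 / 2 ^ r * (2 : ℝ) ^ r := by gcongr
            _ = 1 := by field_simp
    exact_mod_cast h4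
  calc κ / 4 * 2 ^ (m - r) * (C.card : ℝ) ≤ _ := h1
    _ = _ := h2
    _ ≤ ∑ j ∈ Bl, 5 ^ d * ((cells m L u v A j).card : ℝ) := Finset.sum_le_sum h3
    _ = _ := by rw [Finset.mul_sum]

/-- The cells of different clusters are almost disjoint. -/
lemma cluster_cells {m r : ℕ} (L : Finset ι) (u : ι → Fin d → ℝ) (v : ι → Fin d → ℤ)
    (A : ι → Finset ℤ) (j : ℤ) :
    ∑ Q ∈ L.image (fun i k => v i k / 2 ^ r), ((cells m (L.filter fun i =>
      (fun k => v i k / 2 ^ r) = Q) u v (A1 m r L u v A) j).card : ℝ) ≤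
      3 ^ d * ((cells m L u v A j).card : ℝ) := by
  classical
  obtain ⟨Qs, hQs⟩ : ∃ Qs : Finset (Fin d → ℤ), Qs = L.image (fun i k => v i k / 2 ^ r) :=
    ⟨_, rfl⟩
  rw [← hQs]
  obtain ⟨F, hF⟩ : ∃ F : Finset ((_ : Fin d → ℤ) × (Fin d → ℤ)),
    F = Qs.sigma fun Q => cells m (L.filter fun i => (fun k => v i k / 2 ^ r) = Q) u v
      (A1 m r L u v A) j := ⟨_, rfl⟩
  have h1 : (∑ Q ∈ Qs, ((cells m (L.filter fun i =>
      (fun k => v i k / 2 ^ r) = Q) u v (A1 m r L u v A) j).card : ℝ)) = F.card := by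
    rw [hF, Finset.card_sigma]
    push_cast
    rfl
  rw [h1]
  have hmem : ∀ p ∈ F, ∃ i ∈ L, (∀ k, p.1 k = v i k / 2 ^ r) ∧ j ∈ A1 m r L u v A i ∧
      rd (pos (2 ^ m) (u i) (v i) j) = p.2 := by
    intro p hp
    rw [hF, Finset.mem_sigma] at hp
    obtain ⟨i, hi, h⟩ := Finset.mem_image.mp hp.2
    obtain ⟨hi1, hi2⟩ := Finset.mem_filter.mp hi
    obtain ⟨hi3, hi4⟩ := Finset.mem_filter.mp hi1
    exact ⟨i, hi3, fun k => (congrFun hi4 k).symm, hi2, h⟩
  have h2 : F.card ≤ 3 ^ d * (cells m L u v A j).card := by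
    refine Finset.card_le_mul_card_image_of_maps_to (f := fun p => p.2) ?_ (3 ^ d) ?_
    · intro p hp
      obtain ⟨i, hi, -, hj, h⟩ := hmem p hp
      exact Finset.mem_image.mpr ⟨i, Finset.mem_filter.mpr
        ⟨hi, (Finset.mem_filter.mp hj).1⟩, h⟩
    · intro b _
      rcases (Finset.filter (fun p : (_ : Fin d → ℤ) × (Fin d → ℤ) => p.2 = b)
        F).eq_empty_or_nonempty with h0 | ⟨p₀, hp₀⟩
      · rw [h0, Finset.card_empty]
        positivity
      · have h3 : (Finset.filter (fun p : (_ : Fin d → ℤ) × (Fin d → ℤ) => p.2 = b) F).card ≤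
            ((Finset.filter (fun p : (_ : Fin d → ℤ) × (Fin d → ℤ) => p.2 = b) F).image
              fun p => p.1).card := by
          refine le_of_eq (Finset.card_image_of_injOn ?_).symm
          intro p hp p' hp' hpp
          have e1 := (Finset.mem_filter.mp (Finset.mem_coe.mp hp)).2
          have e2 := (Finset.mem_filter.mp (Finset.mem_coe.mp hp')).2
          exact Sigma.ext hpp (heq_of_eq (e1.trans e2.symm))
        refine h3.trans ((card_box _ p₀.1 1 ?_).trans (le_of_eq (by norm_num)))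
        intro x hx k
        obtain ⟨p, hp, rfl⟩ := Finset.mem_image.mp hx
        obtain ⟨hpF, hpb⟩ := Finset.mem_filter.mp hp
        obtain ⟨hp₀F, hp₀b⟩ := Finset.mem_filter.mp hp₀
        obtain ⟨i, hi, hiQ, hiA, hix⟩ := hmem p hpF
        obtain ⟨i₀, hi₀, hiQ₀, hiA₀, hix₀⟩ := hmem p₀ hp₀F
        have h4 : i₀ ∉ far r L v i := by
          intro h5
          exact (Finset.mem_filter.mp hiA).2 i₀ h5
            (hix.trans (hpb.trans (hp₀b.symm.trans hix₀.symm)))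
        have h5 : |v i k - v i₀ k| < 2 ^ r := by
          by_contra hcon
          exact h4 (Finset.mem_filter.mpr ⟨hi₀, k, not_lt.mp hcon⟩)
        rw [hiQ k, hiQ₀ k]
        have hr : (0 : ℤ) < 2 ^ r := by positivity
        rw [abs_lt] at h5
        have h6 := Int.emod_add_mul_ediv (v i k) (2 ^ r)
        have h7 := Int.emod_add_mul_ediv (v i₀ k) (2 ^ r)
        have h8 := Int.emod_nonneg (v i k) hr.ne'
        have h9 := Int.emod_lt_of_pos (v i k) hr
        have h10 := Int.emod_nonneg (v i₀ k) hr.ne'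
        have h11 := Int.emod_lt_of_pos (v i₀ k) hr
        have h12 : 2 ^ r * (v i k / 2 ^ r - v i₀ k / 2 ^ r) < 2 ^ r * 2 := by nlinarith
        have h13 : 2 ^ r * (-2) < 2 ^ r * (v i k / 2 ^ r - v i₀ k / 2 ^ r) := by nlinarith
        have h14 := lt_of_mul_lt_mul_left h12 hr.le
        have h15 := lt_of_mul_lt_mul_left h13 hr.le
        rw [abs_le]
        push_cast
        omega
  exact_mod_cast h2

end

/-- The counting inequality with a loss in the number of lines only. -/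
def CountN (d : ℕ) (ε P c : ℝ) : Prop :=
  ∀ (m N : ℕ) (u : Fin N → Fin d → ℝ) (v : Fin N → Fin d → ℤ)
    (A : Fin N → Finset ℤ) (κ : ℝ), 0 < κ → Function.Injective v →
    (∀ i k, |v i k| ≤ 2 ^ m) → (∀ i, A i ⊆ Finset.Ico 0 (2 ^ m : ℤ)) →
    (∀ i, κ * 2 ^ m ≤ (A i).card) →
    c * (2 ^ m * κ ^ P * (N : ℝ) ^ (1 - ε)) ≤
      ∑ j ∈ Finset.Ico 0 (2 ^ m : ℤ),
        (((univ.filter fun i => j ∈ A i).image fun i => rd (pos (2 ^ m) (u i) (v i) j)).card : ℝ)

/-- Removal of the loss in the scale. -/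
theorem countN_of_countE {ε P c₁ : ℝ} (hε : 0 < ε) (hε1 : ε < 1) (hP : 0 ≤ P) (hc : 0 < c₁)
    (h : CountE d ε P c₁) :
    CountN d ε (P + 1 + ε) (c₁ * ((12 : ℝ) ^ (-ε) / ((4 : ℝ) ^ (P + 1) * 15 ^ d))) := by
  classical
  intro m N u v A κ hκ hinj hv hA hcard
  obtain ⟨Sg, hSg⟩ : ∃ s : ℝ, s = ∑ j ∈ Finset.Ico 0 (2 ^ m : ℤ),
    ((cells m univ u v A j).card : ℝ) := ⟨_, rfl⟩
  have hSg' : (∑ j ∈ Finset.Ico 0 (2 ^ m : ℤ),
        (((univ.filter fun i => j ∈ A i).image fun i =>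
          rd (pos (2 ^ m) (u i) (v i) j)).card : ℝ)) = Sg := hSg.symm
  rw [hSg']
  have hSg0 : 0 ≤ Sg := by rw [hSg]; exact Finset.sum_nonneg fun _ _ => Nat.cast_nonneg _
  rcases Nat.eq_zero_or_pos N with hN | hN
  · subst hN
    rw [Nat.cast_zero, Real.zero_rpow (by linarith), mul_zero, mul_zero]
    exact hSg0
  have hNr : (1 : ℝ) ≤ N := by exact_mod_cast hN
  have hN0 : (0 : ℝ) < N := by linarith
  have hW : (0 : ℝ) < 2 ^ m := by positivity
  have hκ1 : κ ≤ 1 := by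
    have h1 := (hcard ⟨0, hN⟩).trans (card_le_pow hA ⟨0, hN⟩)
    have h2 : κ * 2 ^ m ≤ 1 * 2 ^ m := by linarith
    exact le_of_mul_le_mul_right h2 hW
  -- the scale
  obtain ⟨r, hr1, hr2⟩ : ∃ r : ℕ, 6 * (N : ℝ) ≤ κ * 2 ^ r ∧ κ * 2 ^ r ≤ 12 * (N : ℝ) := by
    have h1 : 1 ≤ 6 * (N : ℝ) / κ := by
      rw [one_le_div hκ]; linarith
    obtain ⟨n, hn1, hn2⟩ := exists_nat_pow_near h1 (by norm_num : (1 : ℝ) < 2)
    refine ⟨n + 1, ?_, ?_⟩
    · rw [div_lt_iff₀ hκ] at hn2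
      linarith
    · rw [le_div_iff₀ hκ] at hn1
      rw [pow_succ]
      linarith
  have hrr : (0 : ℝ) < 2 ^ r := by positivity
  obtain ⟨Z, hZ⟩ : ∃ Z : ℝ, Z = ((2 : ℝ) ^ r) ^ (-ε) := ⟨_, rfl⟩
  have hZ0 : 0 < Z := by rw [hZ]; positivity
  have hZ1 : (12 : ℝ) ^ (-ε) * (κ ^ ε * (N : ℝ) ^ (-ε)) ≤ Z := by
    have h1 : (12 * (N : ℝ) / κ) ^ (-ε) ≤ ((2 : ℝ) ^ r) ^ (-ε) :=
      Real.rpow_le_rpow_of_nonpos hrr (by rw [le_div_iff₀ hκ]; linarith) (by linarith)
    rw [Real.div_rpow (by positivity) hκ.le, Real.mul_rpow (by norm_num) hN0.le] at h1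
    rw [hZ]
    refine le_trans (le_of_eq ?_) h1
    rw [Real.rpow_neg hκ.le]
    field_simp
  have h4P : (1 : ℝ) ≤ (4 : ℝ) ^ (P + 1) := Real.one_le_rpow (by norm_num) (by linarith)
  have h15 : (1 : ℝ) ≤ 15 ^ d := one_le_pow₀ (by norm_num)
  have hκP : κ ^ (P + 1 + ε) = κ ^ P * κ * κ ^ ε := by
    rw [Real.rpow_add hκ, Real.rpow_add hκ, Real.rpow_one]
  have hNe : (N : ℝ) ^ (1 - ε) = N * (N : ℝ) ^ (-ε) := by
    rw [sub_eq_add_neg, Real.rpow_add hN0, Real.rpow_one]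
  -- the bound which both cases give
  suffices hmain : c₁ * Z * (2 ^ m * (κ ^ P * κ) * N) ≤ (4 : ℝ) ^ (P + 1) * 15 ^ d * Sg by
    have h1 : c₁ * ((12 : ℝ) ^ (-ε) / ((4 : ℝ) ^ (P + 1) * 15 ^ d)) *
        (2 ^ m * κ ^ (P + 1 + ε) * (N : ℝ) ^ (1 - ε)) =
        (c₁ * ((12 : ℝ) ^ (-ε) * (κ ^ ε * (N : ℝ) ^ (-ε))) * (2 ^ m * (κ ^ P * κ) * N)) /
          ((4 : ℝ) ^ (P + 1) * 15 ^ d) := by
      rw [hκP, hNe]
      ring
    rw [h1, div_le_iff₀ (by positivity)]
    calc c₁ * ((12 : ℝ) ^ (-ε) * (κ ^ ε * (N : ℝ) ^ (-ε))) * (2 ^ m * (κ ^ P * κ) * N)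
        ≤ c₁ * Z * (2 ^ m * (κ ^ P * κ) * N) := by gcongr
      _ ≤ _ := hmain
      _ = _ := by ring
  rcases le_or_gt m r with hmr | hmr
  · -- few scales
    have h1 := h m N u v A κ hκ hinj hv hA hcard
    rw [hSg', div_one, Real.rpow_one] at h1
    have h2 : Z ≤ ((2 : ℝ) ^ m) ^ (-ε) := by
      rw [hZ]
      refine Real.rpow_le_rpow_of_nonpos hW ?_ (by linarith)
      exact pow_le_pow_right₀ (by norm_num) hmr
    calc c₁ * Z * (2 ^ m * (κ ^ P * κ) * N) ≤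
          c₁ * ((2 : ℝ) ^ m) ^ (-ε) * (2 ^ m * (κ ^ P * 1) * N) := by gcongr
      _ = c₁ * ((2 : ℝ) ^ m) ^ (-ε) * (2 ^ m * κ ^ P * N) := by ring
      _ ≤ Sg := h1
      _ = 1 * 1 * Sg := by ring
      _ ≤ _ := by gcongr
  · -- clusters
    have hB : (0 : ℝ) < 2 ^ (m - r) := by positivity
    have e : (2 : ℝ) ^ m = 2 ^ r * 2 ^ (m - r) := by
      rw [← pow_add, Nat.add_sub_cancel' hmr.le]
    obtain ⟨A', hA'⟩ : ∃ A' : Fin N → Finset ℤ, A' = A1 m r univ u v A := ⟨_, rfl⟩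
    obtain ⟨Qs, hQs⟩ : ∃ Qs : Finset (Fin d → ℤ), Qs =
      univ.image (fun (i : Fin N) k => v i k / 2 ^ r) := ⟨_, rfl⟩
    obtain ⟨LQ, hLQ⟩ : ∃ LQ : (Fin d → ℤ) → Finset (Fin N), LQ = fun Q => univ.filter fun i =>
      (fun k => v i k / 2 ^ r) = Q := ⟨_, rfl⟩
    have hrz : (0 : ℤ) < 2 ^ r := by positivity
    have hA'sub : ∀ i, A' i ⊆ Finset.Ico 0 (2 ^ m : ℤ) := by
      intro i
      rw [hA']
      exact (A1_sub m r univ u v A i).trans (hA i)
    have hA'card : ∀ i, κ / 2 * 2 ^ m ≤ ((A' i).card : ℝ) := by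
      intro i
      rw [hA']
      refine card_A1 hmr.le univ u v A i (hcard i) ?_
      rw [Finset.card_univ, Fintype.card_fin]
      exact hr1
    have hcl : ∀ Q ∈ Qs, κ / 4 * 2 ^ (m - r) * (c₁ * Z * (2 ^ r * (κ / 4) ^ P *
        ((LQ Q).card : ℝ))) ≤ 5 ^ d * ∑ j ∈ Finset.Ico 0 (2 ^ m : ℤ),
          ((cells m (LQ Q) u v A' j).card : ℝ) := by
      intro Q _
      obtain ⟨w, hw⟩ : ∃ w : Fin N → Fin d → ℤ, w = fun i k => v i k % 2 ^ r := ⟨_, rfl⟩
      have hmemQ : ∀ i ∈ LQ Q, ∀ k, v i k / 2 ^ r = Q k := by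
        intro i hi k
        rw [hLQ] at hi
        exact congrFun (Finset.mem_filter.mp hi).2 k
      have hvw : ∀ i ∈ LQ Q, ∀ k, v i k = 2 ^ r * Q k + w i k := by
        intro i hi k
        rw [← hmemQ i hi k, hw]
        exact (Int.mul_ediv_add_emod _ _).symm
      have hwb : ∀ i, ∀ k, 0 ≤ w i k ∧ w i k ≤ 2 ^ r := by
        intro i k
        rw [hw]
        exact ⟨Int.emod_nonneg _ hrz.ne', (Int.emod_lt_of_pos _ hrz).le⟩
      have h1 := count_finset (a := 1) h r (LQ Q) u w (A2 m r κ A') (κ := κ / 4)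
        (by positivity)
        (by
          intro i hi i' hi' hii
          apply hinj
          funext k
          rw [hvw i (Finset.mem_coe.mp hi) k, hvw i' (Finset.mem_coe.mp hi') k, hii])
        (by
          intro i _ k
          rw [abs_of_nonneg (hwb i k).1]
          exact (hwb i k).2)
        (fun i _ => Finset.filter_subset _ _)
        (fun i _ => card_A2 hmr.le A' hκ i (hA'sub i) (hA'card i))
      rw [div_one, Real.rpow_one, ← hZ] at h1
      rw [blocks hmr.le, Finset.mul_sum]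
      calc κ / 4 * 2 ^ (m - r) * (c₁ * Z * (2 ^ r * (κ / 4) ^ P * ((LQ Q).card : ℝ)))
          ≤ κ / 4 * 2 ^ (m - r) * ∑ j' ∈ Finset.Ico 0 (2 ^ r : ℤ),
              ((cells r (LQ Q) u w (A2 m r κ A') j').card : ℝ) := by gcongr
        _ = ∑ j' ∈ Finset.Ico 0 (2 ^ r : ℤ), κ / 4 * 2 ^ (m - r) *
              ((cells r (LQ Q) u w (A2 m r κ A') j').card : ℝ) := by rw [Finset.mul_sum]
        _ ≤ _ := Finset.sum_le_sum fun j' _ =>
            block_cells hmr.le (LQ Q) u v w Q hvw (fun i _ => hwb i) A' κ j'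
    have hsum : ∑ Q ∈ Qs, ((LQ Q).card : ℝ) = N := by
      have h1 : (univ : Finset (Fin N)).card = ∑ Q ∈ Qs, (LQ Q).card := by
        rw [hLQ]
        refine Finset.card_eq_sum_card_fiberwise (s := univ) (t := Qs)
          (f := fun (i : Fin N) (k : Fin d) => v i k / 2 ^ r) fun i _ => ?_
        rw [hQs]
        exact Finset.mem_coe.mpr (Finset.mem_image_of_mem _ (Finset.mem_univ i))
      rw [Finset.card_univ, Fintype.card_fin] at h1
      exact_mod_cast h1.symm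
    have h1 : ∑ Q ∈ Qs, κ / 4 * 2 ^ (m - r) * (c₁ * Z * (2 ^ r * (κ / 4) ^ P *
        ((LQ Q).card : ℝ))) ≤ 5 ^ d * (3 ^ d * Sg) := by
      calc _ ≤ ∑ Q ∈ Qs, 5 ^ d * ∑ j ∈ Finset.Ico 0 (2 ^ m : ℤ),
            ((cells m (LQ Q) u v A' j).card : ℝ) := Finset.sum_le_sum hcl
        _ = 5 ^ d * ∑ j ∈ Finset.Ico 0 (2 ^ m : ℤ), ∑ Q ∈ Qs,
            ((cells m (LQ Q) u v A' j).card : ℝ) := by
            rw [← Finset.mul_sum, Finset.sum_comm]
        _ ≤ 5 ^ d * ∑ j ∈ Finset.Ico 0 (2 ^ m : ℤ), 3 ^ d * ((cells m univ u v A j).card : ℝ) := by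
            refine mul_le_mul_of_nonneg_left (Finset.sum_le_sum fun j _ => ?_) (by positivity)
            rw [hQs, hLQ, hA']
            exact cluster_cells univ u v A j
        _ = _ := by rw [hSg, Finset.mul_sum (a := (3 : ℝ) ^ d)]
    rw [← Finset.mul_sum, ← Finset.mul_sum, ← Finset.mul_sum, hsum] at h1
    have h2 : (κ / 4) ^ P * (4 : ℝ) ^ P = κ ^ P := by
      rw [← Real.mul_rpow (by positivity) (by norm_num)]
      congr 1
      ring
    have h3 : (4 : ℝ) ^ (P + 1) = (4 : ℝ) ^ P * 4 := by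
      rw [Real.rpow_add (by norm_num), Real.rpow_one]
    have h4 : (15 : ℝ) ^ d = 5 ^ d * 3 ^ d := by rw [← mul_pow]; norm_num
    have h4P0 : (0 : ℝ) < (4 : ℝ) ^ P := by positivity
    calc c₁ * Z * (2 ^ m * (κ ^ P * κ) * N)
        = (4 : ℝ) ^ P * 4 * (κ / 4 * 2 ^ (m - r) * (c₁ * Z * (2 ^ r * (κ / 4) ^ P * N))) := by
          rw [e, ← h2]; ring
      _ ≤ (4 : ℝ) ^ P * 4 * (5 ^ d * (3 ^ d * Sg)) := by gcongr
      _ = _ := by rw [h3, h4]; ring

/-- The counting inequality without a loss in the scale follows from the entropy inequality. -/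
theorem countN_of_KP (h : Pool.KA.KP d) {ε : ℝ} (hε : 0 < ε) (hε1 : ε < 1) :
    ∃ P c : ℝ, 1 + (d : ℝ) ≤ P ∧ 0 < c ∧ CountN d ε P c := by
  obtain ⟨P, c, hP1, hP2, hc, hcount⟩ := count_of_KP h hε
  refine ⟨P + 1 + ε, _, by linarith, ?_, countN_of_countE hε hε1 (by linarith) hc hcount⟩
  positivity

end Pool.KFIN
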