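import Pool.Agent.H73.KFIN.Count
import Pool.Agent.H53.Dense.Restr
import Pool.Agent.H55.Dense.HDim

/-!
# From the entropy inequality `KP d` to tubes with shadings
-/

set_option autoImplicit false

open MeasureTheory ENNReal
open scoped RealInnerProductSpace

namespace Pool.KFIN

open Pool.Agent.H53.Kak Pool.Agent.H32.Dense Pool.Agent.H53.Dns

variable {d : ℕ}

/-- The form for tubes follows from the discrete form, for one value of the loss. -/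
theorem restr_of_count {a P ε c₀ : ℝ} (ha : 1 ≤ a) (hP : 1 + d / a ≤ P) (hε : 0 < ε)
    (hc : 0 < c₀)
    (hcount : ∀ (m N : ℕ) (u : Fin N → Fin d → ℝ) (v : Fin N → Fin d → ℤ)
    (A : Fin N → Finset ℤ) (κ : ℝ), 0 < κ → Function.Injective v →
    (∀ i k, |v i k| ≤ 2 ^ m) → (∀ i, A i ⊆ Finset.Ico 0 (2 ^ m : ℤ)) →
    (∀ i, κ * 2 ^ m ≤ (A i).card) →
    c₀ * ((2 : ℝ) ^ m) ^ (-(ε / 2)) * (2 ^ m * κ ^ P * (N : ℝ) ^ (1 / a)) ≤
      ∑ j ∈ Finset.Ico 0 (2 ^ m : ℤ),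
        (((Finset.univ.filter fun i => j ∈ A i).image fun i =>
          rd (pos (2 ^ m) (u i) (v i) j)).card : ℝ)) :
    ∃ c : ℝ, 0 < c ∧ ∀ δ : ℝ, 0 < δ → δ < 1 → ∀ (ι : Type) (S : Finset ι)
    (x₀ e : ι → E d), Fam δ e S → ∀ (X : Set (E d)), MeasurableSet X → ∀ lam : ℝ, 0 < lam →
    lam ≤ 1 →
    (∀ i ∈ S, ENNReal.ofReal (lam * δ ^ d) ≤ volume (X ∩ tube δ (x₀ i) (e i))) →
    ENNReal.ofReal (c * δ ^ ε * (lam ^ P * δ ^ d * (S.card : ℝ) ^ (1 / a))) ≤ volume X := by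
  have ha0 : 0 < a := by linarith
  have hd0 : (0 : ℝ) ≤ d := Nat.cast_nonneg d
  have hda : 0 ≤ (d : ℝ) / a := by positivity
  have hP1 : 1 ≤ P := by linarith
  have hCv := Cv_pos d
  have hCw := one_le_Cw d
  have hCw0 : 0 < Cw d := by linarith
  have hG := one_le_CG d
  have hε2 : 0 < ε / 2 := by linarith
  obtain ⟨η, hη⟩ : ∃ η, η = ε / 2 / (P + 1) := ⟨_, rfl⟩
  have hη0 : 0 < η := by rw [hη]; positivity
  obtain ⟨m₀, hm₀⟩ : ∃ m₀ : ℕ, 10 * Cv d < 2 ^ m₀ := pow_unbounded_of_one_lt _ (by norm_num)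
  obtain ⟨A₁, hA₁⟩ : ∃ A₁ : ℝ, A₁ = m₀ + 1 + 2 / η := ⟨_, rfl⟩
  have hA₁0 : 0 < A₁ := by rw [hA₁]; positivity
  obtain ⟨C₃, hC₃⟩ : ∃ C₃ : ℝ, C₃ = CG d * 3 ^ d := ⟨_, rfl⟩
  have hC₃1 : 1 ≤ C₃ := by
    rw [hC₃]
    have : (1 : ℝ) ≤ 3 ^ d := one_le_pow₀ (by norm_num)
    nlinarith
  obtain ⟨c₁, hc₁⟩ : ∃ c₁ : ℝ, c₁ = c₀ * (Cv d / 4) * (16 * Cv d) ^ (-P) * (Cw d)⁻¹ *
    (2 * ((d : ℝ) + 1))⁻¹ * (A₁ ^ (P + 1))⁻¹ / 11 ^ d := ⟨_, rfl⟩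
  have hc₁0 : 0 < c₁ := by rw [hc₁]; positivity
  refine ⟨min c₁ C₃⁻¹, lt_min hc₁0 (by positivity), ?_⟩
  intro δ hδ hδ1 ι S c e hF X hX lam hlam hlam1 hvol
  rcases S.eq_empty_or_nonempty with rfl | hSne
  · rw [Finset.card_empty, Nat.cast_zero, Real.zero_rpow (by positivity), mul_zero, mul_zero,
      ENNReal.ofReal_zero]
    exact bot_le
  rcases le_or_gt lam δ with hcase | hcase
  · -- very small density
    obtain ⟨i, hi⟩ := hSne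
    refine le_trans (ENNReal.ofReal_le_ofReal ?_) ((hvol i hi).trans
      (measure_mono Set.inter_subset_left))
    have h1 := card_le_all hδ hδ1 hF
    rw [← hC₃] at h1
    have h2 : (S.card : ℝ) ^ (1 / a) ≤ C₃ * (δ ^ ((d : ℝ) / a))⁻¹ := by
      calc (S.card : ℝ) ^ (1 / a) ≤ (C₃ * (δ ^ d)⁻¹) ^ (1 / a) := by gcongr
        _ = C₃ ^ (1 / a) * (δ ^ ((d : ℝ) / a))⁻¹ := by
            rw [Real.mul_rpow (by positivity) (by positivity), Real.inv_rpow (by positivity),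
              ← Real.rpow_natCast δ d, ← Real.rpow_mul hδ.le, mul_one_div]
        _ ≤ C₃ ^ (1 : ℝ) * (δ ^ ((d : ℝ) / a))⁻¹ := by
            apply mul_le_mul_of_nonneg_right _ (by positivity)
            exact Real.rpow_le_rpow_of_exponent_le hC₃1 (by rw [div_le_one ha0]; exact ha)
        _ = _ := by rw [Real.rpow_one]
    have h3 : lam ^ P ≤ lam * δ ^ ((d : ℝ) / a) := by
      calc lam ^ P ≤ lam ^ (1 + (d : ℝ) / a) :=
            Real.rpow_le_rpow_of_exponent_ge hlam hlam1 hP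
        _ = lam * lam ^ ((d : ℝ) / a) := by rw [Real.rpow_add hlam, Real.rpow_one]
        _ ≤ _ := by gcongr
    have h4 : δ ^ ε ≤ 1 := Real.rpow_le_one hδ.le hδ1.le hε.le
    have h5 : 0 < δ ^ ((d : ℝ) / a) := by positivity
    calc min c₁ C₃⁻¹ * δ ^ ε * (lam ^ P * δ ^ d * (S.card : ℝ) ^ (1 / a))
        ≤ C₃⁻¹ * 1 * ((lam * δ ^ ((d : ℝ) / a)) * δ ^ d * (C₃ * (δ ^ ((d : ℝ) / a))⁻¹)) := by
          gcongr
          exact min_le_right _ _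
      _ = lam * δ ^ d := by field_simp
  · obtain ⟨S₁, hS1, hS2⟩ := num_levels hδ hδ1 hη0 m₀
    rw [← hA₁] at hS2
    have hδinv : 1 < δ⁻¹ := (one_lt_inv₀ hδ).mpr hδ1
    have hS₁ : 0 < S₁ := by
      rcases Nat.eq_zero_or_pos S₁ with h0 | h0
      · rw [h0, pow_zero] at hS1
        have : (1 : ℝ) ≤ 2 ^ m₀ := one_le_pow₀ (by norm_num)
        nlinarith
      · exact h0
    have hS : 5 * (Cv d * (1 / 2) ^ S₁) ≤ lam / 2 := by
      have h1 : 10 * Cv d * δ⁻¹ ≤ 2 ^ S₁ := by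
        refine le_trans ?_ hS1.le
        gcongr
      have h2 : 10 * Cv d ≤ δ * 2 ^ S₁ := by
        calc 10 * Cv d = δ * (10 * Cv d * δ⁻¹) := by field_simp
          _ ≤ _ := by gcongr
      rw [one_div, inv_pow]
      have h3 : 5 * (Cv d * ((2 : ℝ) ^ S₁)⁻¹) ≤ δ / 2 := by
        rw [← div_eq_mul_inv, ← mul_div_assoc, div_le_iff₀ (by positivity)]
        linarith
      linarith
    have hmain := restr_main ha hP1 hε2 hc hcount hδ hδ1 S hSne c e hF hX hlam hvol hS₁ hS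
    have hS₁r : (0 : ℝ) < S₁ := by exact_mod_cast hS₁
    have h11 : (0 : ℝ) < 11 ^ d := by positivity
    have h1 : c₁ * δ ^ ε ≤ (c₀ * (Cv d / 4) * (16 * Cv d) ^ (-P) * (Cw d)⁻¹ *
        (2 * ((d : ℝ) + 1))⁻¹ * ((S₁ : ℝ) ^ (P + 1))⁻¹ * δ ^ (ε / 2)) / 11 ^ d := by
      have h2 : (S₁ : ℝ) ^ (P + 1) ≤ A₁ ^ (P + 1) * δ ^ (-(ε / 2)) := by
        calc (S₁ : ℝ) ^ (P + 1) ≤ (A₁ * δ ^ (-η)) ^ (P + 1) := by gcongr
          _ = A₁ ^ (P + 1) * δ ^ (-(ε / 2)) := by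
              rw [Real.mul_rpow hA₁0.le (by positivity), ← Real.rpow_mul hδ.le, hη]
              congr 2
              field_simp
      have h3 : (A₁ ^ (P + 1))⁻¹ * δ ^ ε ≤ ((S₁ : ℝ) ^ (P + 1))⁻¹ * δ ^ (ε / 2) := by
        have h4 : δ ^ ε = δ ^ (ε / 2) * δ ^ (ε / 2) := by
          rw [← Real.rpow_add hδ]; congr 1; ring
        have h5 : (A₁ ^ (P + 1) * δ ^ (-(ε / 2)))⁻¹ ≤ ((S₁ : ℝ) ^ (P + 1))⁻¹ :=
          inv_anti₀ (by positivity) h2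
        rw [Real.rpow_neg hδ.le, mul_inv, inv_inv] at h5
        rw [h4, ← mul_assoc]
        gcongr
      calc c₁ * δ ^ ε = (c₀ * (Cv d / 4) * (16 * Cv d) ^ (-P) * (Cw d)⁻¹ *
            (2 * ((d : ℝ) + 1))⁻¹ * ((A₁ ^ (P + 1))⁻¹ * δ ^ ε)) / 11 ^ d := by rw [hc₁]; ring
        _ ≤ (c₀ * (Cv d / 4) * (16 * Cv d) ^ (-P) * (Cw d)⁻¹ *
            (2 * ((d : ℝ) + 1))⁻¹ * (((S₁ : ℝ) ^ (P + 1))⁻¹ * δ ^ (ε / 2))) / 11 ^ d := by
            gcongr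
        _ = _ := by ring
    have h6 : ENNReal.ofReal (min c₁ C₃⁻¹ * δ ^ ε * (lam ^ P * δ ^ d * (S.card : ℝ) ^ (1 / a))) *
        ((11 ^ d : ℕ) : ℝ≥0∞) ≤ ((11 ^ d : ℕ) : ℝ≥0∞) * volume X := by
      refine le_trans ?_ hmain
      have h7 : ((11 ^ d : ℕ) : ℝ≥0∞) = ENNReal.ofReal (11 ^ d) := by
        rw [← ENNReal.ofReal_natCast]; push_cast; rfl
      rw [h7, ← ENNReal.ofReal_mul (by positivity)]
      apply ENNReal.ofReal_le_ofReal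
      calc min c₁ C₃⁻¹ * δ ^ ε * (lam ^ P * δ ^ d * (S.card : ℝ) ^ (1 / a)) * 11 ^ d
          ≤ (c₁ * δ ^ ε) * (lam ^ P * δ ^ d * (S.card : ℝ) ^ (1 / a)) * 11 ^ d := by
            gcongr
            exact min_le_left _ _
        _ ≤ ((c₀ * (Cv d / 4) * (16 * Cv d) ^ (-P) * (Cw d)⁻¹ *
            (2 * ((d : ℝ) + 1))⁻¹ * ((S₁ : ℝ) ^ (P + 1))⁻¹ * δ ^ (ε / 2)) / 11 ^ d) *
            (lam ^ P * δ ^ d * (S.card : ℝ) ^ (1 / a)) * 11 ^ d := by gcongr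
        _ = _ := by field_simp
    rw [mul_comm] at h6
    have h8 : ((11 ^ d : ℕ) : ℝ≥0∞) ≠ 0 := by
      have : (11 ^ d : ℕ) ≠ 0 := by positivity
      exact_mod_cast this
    exact (ENNReal.mul_le_mul_iff_right h8 (ENNReal.natCast_ne_top _)).mp h6


/-- Density bound for tubes without loss in the number of tubes. -/
theorem dens_of_KP (h : Pool.KA.KP d) : Pool.Agent.H55.HDim.Dens d 1 := by
  intro ε hε
  obtain ⟨P, c₀, hP1, -, hc, hcount⟩ := count_of_KP h (ε := ε / 2) (by linarith)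
  obtain ⟨c, hc0, hmain⟩ := restr_of_count (d := d) (a := 1) (P := P) (ε := ε) le_rfl
    (by rwa [div_one]) hε hc hcount
  refine ⟨c, P, hc0, ?_⟩
  intro δ hδ hδ1 ι S x₀ e hF X hX lam hlam hlam1 hvol
  have h1 := hmain δ hδ hδ1 ι S x₀ e hF X hX lam hlam hlam1 hvol
  rwa [div_one] at h1

end Pool.KFIN
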